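import Mathlib

/-!
Iterated commutators modulo the lower central series.
-/

namespace Pool.Agent.Q162.Nil

open scoped commutatorElement

variable {G : Type*} [Group G]

/-- lower central series -/
abbrev Lc (G : Type*) [Group G] (n : ℕ) : Subgroup G := (⊤ : Subgroup G).lowerCentralSeries n

lemma Lc_zero : Lc G 0 = ⊤ := rfl

lemma Lc_le {m n : ℕ} (h : m ≤ n) : Lc G n ≤ Lc G m :=
  Subgroup.lowerCentralSeries_antitone _ h

lemma comm_mem (q : G) {p : G} {n : ℕ} (hp : p ∈ Lc G n) : ⁅q, p⁆ ∈ Lc G (n + 1) := by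
  have h1 : ⁅p, q⁆ ∈ Lc G (n + 1) := Subgroup.commutator_mem_commutator hp (Subgroup.mem_top q)
  rw [← commutatorElement_inv]
  exact inv_mem h1

/-- elements of `Lc (n+1)` commutators are central modulo `Lc (n+2)` -/
lemma central_mk (x : G) {c : G} {n : ℕ} (hc : c ∈ Lc G n) :
    (QuotientGroup.mk x : G ⧸ Lc G (n + 1)) * QuotientGroup.mk c
      = QuotientGroup.mk c * QuotientGroup.mk x := by
  have h := comm_mem x hc
  rw [← QuotientGroup.mk_mul, ← QuotientGroup.mk_mul, QuotientGroup.eq]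
  have e : (x * c)⁻¹ * (c * x) = ⁅c⁻¹, x⁻¹⁆ := by simp only [commutatorElement_def]; group
  rw [e]
  have h2 : ⁅x⁻¹, c⁻¹⁆ ∈ Lc G (n + 1) := comm_mem x⁻¹ (inv_mem hc)
  rw [← commutatorElement_inv]
  exact inv_mem h2

lemma mk_comm {n : ℕ} (x y : G) : (QuotientGroup.mk ⁅x, y⁆ : G ⧸ Lc G n)
    = ⁅(QuotientGroup.mk x : G ⧸ Lc G n), (QuotientGroup.mk y : G ⧸ Lc G n)⁆ := by
  simp only [commutatorElement_def]
  rfl

lemma comm_mul_left (q q' : G) {u : G} {n : ℕ} (hu : u ∈ Lc G n) :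
    (QuotientGroup.mk ⁅q * q', u⁆ : G ⧸ Lc G (n + 2))
      = QuotientGroup.mk ⁅q, u⁆ * QuotientGroup.mk ⁅q', u⁆ := by
  have h1 : ⁅q * q', u⁆ = q * ⁅q', u⁆ * q⁻¹ * ⁅q, u⁆ := by
    simp only [commutatorElement_def]; group
  have h2 := central_mk q (comm_mem q' hu)
  have h3 := central_mk ⁅q, u⁆ (comm_mem q' hu)
  rw [h1]
  simp only [QuotientGroup.mk_mul, QuotientGroup.mk_inv]
  rw [h2, mul_assoc (QuotientGroup.mk ⁅q', u⁆), mul_inv_cancel, mul_one, ← h3]

lemma comm_mul_right (q : G) {u v : G} {n : ℕ} (hv : v ∈ Lc G n) :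
    (QuotientGroup.mk ⁅q, u * v⁆ : G ⧸ Lc G (n + 2))
      = QuotientGroup.mk ⁅q, u⁆ * QuotientGroup.mk ⁅q, v⁆ := by
  have h1 : ⁅q, u * v⁆ = ⁅q, u⁆ * (u * ⁅q, v⁆ * u⁻¹) := by
    simp only [commutatorElement_def]; group
  have h2 := central_mk u (comm_mem q hv)
  rw [h1]
  simp only [QuotientGroup.mk_mul, QuotientGroup.mk_inv]
  rw [h2, mul_assoc (QuotientGroup.mk ⁅q, v⁆), mul_inv_cancel, mul_one]

lemma comm_congr (q : G) {u v : G} {n : ℕ}
    (h : (QuotientGroup.mk u : G ⧸ Lc G (n + 1)) = QuotientGroup.mk v) :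
    (QuotientGroup.mk ⁅q, u⁆ : G ⧸ Lc G (n + 2)) = QuotientGroup.mk ⁅q, v⁆ := by
  rw [QuotientGroup.eq] at h
  have hv : v = u * (u⁻¹ * v) := by group
  have h1 : ⁅q, u⁻¹ * v⁆ ∈ Lc G (n + 2) := comm_mem q h
  have h2 : ⁅q, u * (u⁻¹ * v)⁆ = ⁅q, u⁆ * (u * ⁅q, u⁻¹ * v⁆ * u⁻¹) := by
    simp only [commutatorElement_def]; group
  rw [QuotientGroup.eq]
  conv_rhs => rw [hv]
  rw [h2]
  have h3 : (u * ⁅q, u⁻¹ * v⁆ * u⁻¹) ∈ Lc G (n + 2) :=
    (inferInstance : (Lc G (n + 2)).Normal).conj_mem _ h1 u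
  have e : ⁅q, u⁆⁻¹ * (⁅q, u⁆ * (u * ⁅q, u⁻¹ * v⁆ * u⁻¹)) = u * ⁅q, u⁻¹ * v⁆ * u⁻¹ := by group
  rw [e]; exact h3

/-- right normed iterated commutator -/
def Dl : List G → G
  | [] => 1
  | [z] => z
  | x :: y :: l => ⁅x, Dl (y :: l)⁆

lemma Dl_single (z : G) : Dl [z] = z := rfl

lemma Dl_cons (x : G) {t : List G} (ht : t ≠ []) : Dl (x :: t) = ⁅x, Dl t⁆ := by
  cases t with
  | nil => exact absurd rfl ht
  | cons y l => rfl

lemma Dl_mem (t : List G) (ht : t ≠ []) : Dl t ∈ Lc G (t.length - 1) := by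
  induction t with
  | nil => exact absurd rfl ht
  | cons x t ih =>
    by_cases h : t = []
    · subst h; simp [Dl, Lc]
    · rw [Dl_cons x h]
      have h1 := comm_mem x (ih h)
      have h2 : t.length ≠ 0 := fun h0 => h (List.length_eq_zero_iff.1 h0)
      have e : t.length - 1 + 1 = (x :: t).length - 1 := by simp; omega
      rwa [e] at h1

lemma Dl_mul (l1 l2 : List G) (x y : G) :
    (QuotientGroup.mk (Dl (l1 ++ (x * y) :: l2)) : G ⧸ Lc G (l1.length + l2.length + 1))
      = QuotientGroup.mk (Dl (l1 ++ x :: l2)) * QuotientGroup.mk (Dl (l1 ++ y :: l2)) := by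
  induction l1 with
  | nil =>
    by_cases h : l2 = []
    · subst h; rfl
    · simp only [List.nil_append]
      rw [Dl_cons _ h, Dl_cons _ h, Dl_cons _ h]
      have h1 := comm_mul_left x y (Dl_mem l2 h)
      have h2 : l2.length ≠ 0 := fun h0 => h (List.length_eq_zero_iff.1 h0)
      have e : l2.length - 1 + 2 = ([] : List G).length + l2.length + 1 := by simp; omega
      rwa [e] at h1
  | cons q l1 ih =>
    have hne : ∀ z : G, l1 ++ z :: l2 ≠ [] := fun z => by simp
    simp only [List.cons_append]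
    rw [Dl_cons _ (hne _), Dl_cons _ (hne _), Dl_cons _ (hne _)]
    have h0 := comm_congr q (n := l1.length + l2.length) ih
    have h1 := Dl_mem (l1 ++ y :: l2) (hne y)
    have e1 : (l1 ++ y :: l2).length - 1 = l1.length + l2.length := by
      rw [List.length_append, List.length_cons]; omega
    rw [e1] at h1
    have h2 := comm_mul_right q (u := Dl (l1 ++ x :: l2)) h1
    have e2 : (q :: l1).length + l2.length + 1 = l1.length + l2.length + 2 := by
      rw [List.length_cons]; ring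
    rw [e2, h0]
    exact h2

/-- the homomorphism given by one variable -/
def Dhom (l1 l2 : List G) : G →* G ⧸ Lc G (l1.length + l2.length + 1) where
  toFun x := QuotientGroup.mk (Dl (l1 ++ x :: l2))
  map_one' := by
    have h := Dl_mul l1 l2 (1 : G) 1
    rw [mul_one] at h
    exact (mul_eq_left (a := (QuotientGroup.mk (Dl (l1 ++ (1 : G) :: l2)) :
      G ⧸ Lc G (l1.length + l2.length + 1)))).1 h.symm
  map_mul' x y := Dl_mul l1 l2 x y

lemma Dhom_apply (l1 l2 : List G) (x : G) :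
    Dhom l1 l2 x = QuotientGroup.mk (Dl (l1 ++ x :: l2)) := rfl

/-- the subgroup of values of one variable for which the commutator lies in `M`. -/
def V (M : Subgroup G) (l1 l2 : List G) : Subgroup G :=
  (M.map (QuotientGroup.mk' (Lc G (l1.length + l2.length + 1)))).comap (Dhom l1 l2)

lemma mem_of_mk {n : ℕ} {M : Subgroup G} (hM : Lc G n ≤ M) {x y : G}
    (h : (QuotientGroup.mk x : G ⧸ Lc G n) = QuotientGroup.mk y) (hx : x ∈ M) : y ∈ M := by
  rw [QuotientGroup.eq] at h
  have : y = x * (x⁻¹ * y) := by group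
  rw [this]
  exact mul_mem hx (hM h)

lemma mem_V {M : Subgroup G} {l1 l2 : List G} (hM : Lc G (l1.length + l2.length + 1) ≤ M) (x : G) :
    x ∈ V M l1 l2 ↔ Dl (l1 ++ x :: l2) ∈ M := by
  simp only [V, Subgroup.mem_comap, Dhom_apply, Subgroup.mem_map]
  constructor
  · rintro ⟨y, hy, hxy⟩
    exact mem_of_mk hM hxy hy
  · intro h
    exact ⟨_, h, rfl⟩

/-- generation of the lower central series by iterated commutators. -/
lemma Lc_le_of_Dl (m : ℕ) : ∀ M : Subgroup G, Lc G (m + 1) ≤ M →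
    (∀ t : List G, t.length = m + 1 → Dl t ∈ M) → Lc G m ≤ M := by
  induction m with
  | zero =>
    intro M _ h x _
    exact h [x] rfl
  | succ m ih =>
    intro M hM h
    have key : ∀ q p : G, p ∈ Lc G m → ⁅q, p⁆ ∈ M := by
      intro q p hp
      let M' : Subgroup G :=
        { carrier := {p | p ∈ Lc G m ∧ ⁅q, p⁆ ∈ M}
          one_mem' := ⟨one_mem _, by simp [one_mem]⟩
          mul_mem' := by
            rintro u v ⟨hu, hu'⟩ ⟨hv, hv'⟩
            refine ⟨mul_mem hu hv, ?_⟩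
            have h1 := comm_mul_right q (u := u) hv
            rw [← QuotientGroup.mk_mul] at h1
            exact mem_of_mk hM h1.symm (mul_mem hu' hv')
          inv_mem' := by
            rintro u ⟨hu, hu'⟩
            refine ⟨inv_mem hu, ?_⟩
            have h1 := comm_mul_right q (u := u) (inv_mem hu)
            rw [mul_inv_cancel, commutatorElement_one_right, ← QuotientGroup.mk_mul] at h1
            have h2 : ⁅q, u⁆ * ⁅q, u⁻¹⁆ ∈ M := mem_of_mk hM h1 (one_mem _)
            exact (Subgroup.mul_mem_cancel_left M hu').1 h2 }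
      have h1 : Lc G m ≤ M' := by
        apply ih M'
        · intro c hc
          exact ⟨Lc_le (Nat.le_succ m) hc, hM (comm_mem q hc)⟩
        · intro t ht
          have hne : t ≠ [] := by rintro rfl; simp at ht
          refine ⟨?_, ?_⟩
          · have := Dl_mem t hne
            rwa [ht, Nat.add_sub_cancel] at this
          · rw [← Dl_cons q hne]
            exact h (q :: t) (by simp [ht])
      exact (h1 hp).2
    rw [show Lc G (m + 1) = ⁅Lc G m, ⊤⁆ from rfl, Subgroup.commutator_le]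
    intro p hp q _
    rw [← commutatorElement_inv]
    exact inv_mem (key q p hp)

lemma Dl_one_mid (l1 l2 : List G) (h : l1 ≠ [] ∨ l2 ≠ []) : Dl (l1 ++ (1 : G) :: l2) = 1 := by
  induction l1 with
  | nil =>
    have h2 : l2 ≠ [] := by simpa using h
    rw [List.nil_append, Dl_cons _ h2, commutatorElement_one_left]
  | cons q l1 ih =>
    rw [List.cons_append, Dl_cons q (by simp)]
    by_cases h' : l1 ≠ [] ∨ l2 ≠ []
    · rw [ih h', commutatorElement_one_right]
    · push Not at h'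
      rw [h'.1, h'.2]
      simp [Dl]

lemma Dl_replicate (a : G) (m : ℕ) : Dl (List.replicate (m + 2) a) = 1 := by
  induction m with
  | zero => simp [Dl, List.replicate]
  | succ m ih =>
    rw [List.replicate_succ, Dl_cons a (by simp [List.replicate_succ]), ih,
      commutatorElement_one_right]

lemma pow_comm_left (a : G) {u : G} {n : ℕ} (hu : u ∈ Lc G n) (k : ℕ) :
    (QuotientGroup.mk ⁅a ^ k, u⁆ : G ⧸ Lc G (n + 2)) = (QuotientGroup.mk ⁅a, u⁆) ^ k := by
  induction k with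
  | zero =>
    rw [pow_zero, commutatorElement_one_left]
    exact (pow_zero (QuotientGroup.mk ⁅a, u⁆ : G ⧸ Lc G (n + 2))).symm
  | succ k ih => rw [pow_succ, comm_mul_left _ _ hu, ih, pow_succ]

lemma pow_comm_right (a : G) {u : G} {n : ℕ} (hu : u ∈ Lc G n) (k : ℕ) :
    (QuotientGroup.mk ⁅a, u ^ k⁆ : G ⧸ Lc G (n + 2)) = (QuotientGroup.mk ⁅a, u⁆) ^ k := by
  induction k with
  | zero =>
    rw [pow_zero, commutatorElement_one_right]
    exact (pow_zero (QuotientGroup.mk ⁅a, u⁆ : G ⧸ Lc G (n + 2))).symm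
  | succ k ih => rw [pow_succ, comm_mul_right _ hu, ih, pow_succ]

end Pool.Agent.Q162.Nil
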