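import Pool.Agent.Q162.Nil.Dyn

/-!
The commutator subgroup stabilises the cluster sets.
-/

namespace Pool.Agent.Q162.Nil

open scoped commutatorElement Topology Pointwise
open Filter Set

variable {G : Type*} [Group G] [TopologicalSpace G] [IsTopologicalGroup G]

lemma cont_comm : Continuous fun p : G × G => ⁅p.1, p.2⁆ := by
  simp only [commutatorElement_def]; fun_prop

lemma cont_Dl (l1 l2 : List G) : Continuous fun v : G => Dl (l1 ++ v :: l2) := by
  induction l1 with
  | nil =>
    by_cases h : l2 = []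
    · subst h; exact continuous_id
    · simp only [List.nil_append, Dl_cons _ h, commutatorElement_def]
      fun_prop
  | cons q l1 ih =>
    simp only [List.cons_append]
    have e : (fun v : G => Dl (q :: (l1 ++ v :: l2))) = fun v => ⁅q, Dl (l1 ++ v :: l2)⁆ := by
      ext v; exact Dl_cons q (by simp)
    rw [e]
    simp only [commutatorElement_def]
    fun_prop

lemma Dl_one (l1 l2 : List G) : Dl (l1 ++ (1 : G) :: l2) = 1 := by
  by_cases h : l1 ≠ [] ∨ l2 ≠ []
  · exact Dl_one_mid l1 l2 h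
  · push Not at h
    rw [h.1, h.2]; rfl

lemma Dl_mem_sub (H : Subgroup G) : ∀ t : List G, (∀ s ∈ t, s ∈ H) → Dl t ∈ H
  | [], _ => one_mem H
  | [z], h => h z (by simp)
  | x :: y :: l, h => by
    have h1 := Dl_mem_sub H (y :: l) (fun s hs => h s (List.mem_cons_of_mem _ hs))
    have hx := h x (by simp)
    rw [Dl_cons x (by simp)]
    rw [commutatorElement_def]
    exact mul_mem (mul_mem (mul_mem hx h1) (inv_mem hx)) (inv_mem h1)

variable {X : Type*} [TopologicalSpace X] [MulAction G X] [ContinuousSMul G X]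

lemma stab_mem_Ls {x₀ : X} (htr : ∀ y : X, ∃ g : G, g • x₀ = y) {U : Filter ℕ} {a : G} {x : X}
    {k : ℕ} (hL : Lc G (k + 2) ≤ Ls U a x) {γ : G} (hγ : γ • x₀ = x₀) (hγk : γ ∈ Lc G (k + 1)) :
    γ ∈ Ls U a x := by
  have key : ∀ γ : G, γ • x₀ = x₀ → γ ∈ Lc G (k + 1) → ∀ y ∈ Lam U a x, γ • y ∈ Lam U a x := by
    intro γ hγ hγk y hy
    obtain ⟨η, rfl⟩ := htr y
    have hγ' : γ⁻¹ • x₀ = x₀ := by rw [inv_smul_eq_iff, hγ]
    have e : γ • η • x₀ = ⁅γ, η⁆ • η • x₀ := by
      have e1 : ⁅γ, η⁆ • η • x₀ = (γ * η) • γ⁻¹ • x₀ := by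
        simp only [← mul_smul, commutatorElement_def]; congr 1; group
      rw [e1, hγ', mul_smul]
    rw [e]
    refine Ls_smul (hL ?_) hy
    rw [← commutatorElement_inv]
    exact inv_mem (comm_mem η hγk)
  exact ⟨key γ hγ hγk, fun y hy => key γ⁻¹ (by rw [inv_smul_eq_iff, hγ]) (inv_mem hγk) y hy⟩

variable [CompactSpace X] [FirstCountableTopology G]

lemma core_aux (hop : OpenOrbits G X) {U : Ultrafilter ℕ} (hU : (U : Filter ℕ) ≤ atTop)
    {a : G} {x : X} {k : ℕ} (hL : Lc G (k + 2) ≤ Ls (U : Filter ℕ) a x) {t : List G}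
    (ht : t.length = k + 1) (hS : ∀ s ∈ t, SR s ∨ s = a) : Dl (a :: t) ∈ Ls (U : Filter ℕ) a x := by
  by_cases h : ∀ s ∈ t, s = a
  · have e : t = List.replicate (k + 1) a := List.eq_replicate_iff.2 ⟨ht, h⟩
    rw [e, ← List.replicate_succ, Dl_replicate]; exact one_mem _
  · push Not at h
    obtain ⟨s, hs, hsa⟩ := h
    have hsr : SR s := (hS s hs).resolve_right hsa
    obtain ⟨l1, l2, rfl⟩ := List.append_of_mem hs
    obtain ⟨r, hr1, hr2⟩ := hsr
    rw [Dl_cons a (by simp)]
    have hlen : k = l1.length + l2.length := by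
      rw [List.length_append, List.length_cons] at ht; omega
    subst hlen
    have hmem : ∀ v : G, Dl (l1 ++ v :: l2) ∈ Lc G (l1.length + l2.length) := by
      intro v
      have := Dl_mem (l1 ++ v :: l2) (by simp)
      have e1 : (l1 ++ v :: l2).length - 1 = l1.length + l2.length := by
        rw [List.length_append, List.length_cons]; omega
      rwa [e1] at this
    refine comm_mem_Ls hop hU hL (g := Dl (l1 ++ s :: l2)) (hmem s)
      (r := fun n => Dl (l1 ++ r n :: l2)) (e := fun n => Dl (l1 ++ (r n ^ n) :: l2)) ?_ ?_ ?_ ?_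
    · have h1 := ((cont_Dl l1 l2).tendsto 1).comp hr1
      rwa [Dl_one] at h1
    · intro n; exact hmem _
    · exact ((cont_Dl l1 l2).tendsto s).comp hr2
    · intro n
      have := map_pow (Dhom l1 l2) (r n) n
      rw [Dhom_apply, Dhom_apply] at this
      rw [this]
      rfl

lemma core (hop : OpenOrbits G X) {U : Ultrafilter ℕ} (hU : (U : Filter ℕ) ≤ atTop)
    {a : G} {x : X} {k : ℕ} (hL : Lc G (k + 2) ≤ Ls (U : Filter ℕ) a x)
    (hgen : Subgroup.closure ({s : G | SR s} ∪ {a}) = ⊤) (j : ℕ) : ∀ l1 l2 : List G,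
    l1.length = j → l1.length + l2.length = k + 1 → (∀ s ∈ l2, SR s ∨ s = a) →
    Dl (a :: (l1 ++ l2)) ∈ Ls (U : Filter ℕ) a x := by
  induction j with
  | zero =>
    intro l1 l2 h1 h2 h3
    have : l1 = [] := List.length_eq_zero_iff.1 h1
    subst this
    exact core_aux hop hU hL (by simpa using h2) (by simpa using h3)
  | succ j ih =>
    intro l1 l2 h1 h2 h3
    have hne : l1 ≠ [] := by rintro rfl; simp at h1
    obtain ⟨l1', z, rfl⟩ : ∃ l1' z, l1 = l1' ++ [z] :=
      ⟨l1.dropLast, l1.getLast hne, (List.dropLast_append_getLast hne).symm⟩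
    have hl : l1'.length = j := by simpa using h1
    have hVlen : Lc G ((a :: l1').length + l2.length + 1) ≤ Ls (U : Filter ℕ) a x := by
      have e : (a :: l1').length + l2.length + 1 = k + 2 := by
        simp only [List.length_append, List.length_cons, List.length_nil] at h2 ⊢
        omega
      rw [e]; exact hL
    have hV : V (Ls (U : Filter ℕ) a x) (a :: l1') l2 = ⊤ := by
      rw [eq_top_iff, ← hgen, Subgroup.closure_le]
      intro s hs
      rw [SetLike.mem_coe, mem_V hVlen]
      have h4 := ih l1' (s :: l2) hl (by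
        simp only [List.length_append, List.length_cons, List.length_nil] at h2 ⊢
        omega) (by
        intro s' hs'
        rcases List.mem_cons.1 hs' with rfl | h
        · rcases hs with h | h
          · exact Or.inl h
          · exact Or.inr h
        · exact h3 s' h)
      simpa using h4
    have h5 : z ∈ V (Ls (U : Filter ℕ) a x) (a :: l1') l2 := by rw [hV]; trivial
    rw [mem_V hVlen] at h5
    simpa using h5

lemma core' (hop : OpenOrbits G X) {U : Ultrafilter ℕ} (hU : (U : Filter ℕ) ≤ atTop)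
    {a : G} {x : X} {k : ℕ} (hL : Lc G (k + 2) ≤ Ls (U : Filter ℕ) a x)
    (hgen : Subgroup.closure ({s : G | SR s} ∪ {a}) = ⊤) {t : List G} (ht : t.length = k + 1) :
    Dl (a :: t) ∈ Ls (U : Filter ℕ) a x := by
  have := core hop hU hL hgen (k + 1) t [] ht (by simpa using ht) (by simp)
  simpa using this

/-- Step A -/
lemma stepA (hop : OpenOrbits G X) {U : Ultrafilter ℕ} (hU : (U : Filter ℕ) ≤ atTop)
    {a : G} {x : X} {k : ℕ} (hL : Lc G (k + 2) ≤ Ls (U : Filter ℕ) a x)
    (hgen : Subgroup.closure ({s : G | SR s} ∪ {a}) = ⊤) {x₀ : X}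
    (htr : ∀ y : X, ∃ g : G, g • x₀ = y) (hd : ∀ O : Set X, IsOpen O → O.Nonempty →
      ∃ n : ℕ, a ^ n • x₀ ∈ O) {t : List G} (ht : t.length = k + 1)
    (htΓ : ∀ s ∈ t, s • x₀ = x₀) (z : G) : Dl (z :: t) ∈ Ls (U : Filter ℕ) a x := by
  have hVlen : Lc G (([] : List G).length + t.length + 1) ≤ Ls (U : Filter ℕ) a x := by
    have e : ([] : List G).length + t.length + 1 = k + 2 := by simp [ht]
    rw [e]; exact hL
  set W := V (Ls (U : Filter ℕ) a x) [] t with hW
  have hmW : ∀ v : G, v ∈ W ↔ Dl (v :: t) ∈ Ls (U : Filter ℕ) a x := by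
    intro v
    rw [hW, mem_V hVlen]; rfl
  have hWc : IsClosed (W : Set G) := by
    have e : (W : Set G) = (fun v => Dl (([] : List G) ++ v :: t)) ⁻¹'
        (Ls (U : Filter ℕ) a x : Set G) := by
      ext v
      rw [SetLike.mem_coe, hmW]; rfl
    rw [e]
    exact (Ls_closed hop _ _ _).preimage (cont_Dl [] t)
  have hWa : a ∈ W := (hmW a).2 (core' hop hU hL hgen ht)
  have hWΓ : ∀ γ : G, γ • x₀ = x₀ → γ ∈ W := by
    intro γ hγ
    rw [hmW]
    have h1 : Dl (γ :: t) ∈ MulAction.stabilizer G x₀ := by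
      apply Dl_mem_sub
      intro s hs
      rw [MulAction.mem_stabilizer_iff]
      rcases List.mem_cons.1 hs with rfl | h
      · exact hγ
      · exact htΓ s h
    have h2 := Dl_mem (γ :: t) (by simp)
    have e : (γ :: t).length - 1 = k + 1 := by simp [ht]
    rw [e] at h2
    exact stab_mem_Ls htr hL h1 h2
  have hall : ∀ g : G, g ∈ W := by
    intro g
    by_contra hg
    -- the complement of W is an open set; its image in X is open
    have hO : ((fun v : G => v * g) ⁻¹' (W : Set G)ᶜ) ∈ 𝓝 (1 : G) := by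
      have hc : Continuous (fun v : G => v * g) := by fun_prop
      apply hc.continuousAt
      refine hWc.isOpen_compl.mem_nhds ?_
      show ¬ (1 * g ∈ W)
      rwa [one_mul]
    obtain ⟨O, hOs, hOo, hO1⟩ := mem_nhds_iff.1 hO
    have hO' := hop (g • x₀) O (hOo.mem_nhds hO1)
    obtain ⟨O2, hO2s, hO2o, hO21⟩ := mem_nhds_iff.1 hO'
    obtain ⟨n, hn⟩ := hd O2 hO2o ⟨_, hO21⟩
    obtain ⟨v, hv, e⟩ := hO2s hn
    simp only at e
    have hγ : (v * g)⁻¹ * a ^ n ∈ W := by
      apply hWΓ
      rw [mul_smul, ← e, ← mul_smul, ← mul_smul]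
      simp
    have h1 : a ^ n ∈ W := pow_mem hWa n
    have h2 : v * g ∈ W := by
      have h3 := mul_mem h1 (inv_mem hγ)
      simpa using h3
    exact hOs hv h2
  exact (hmW z).1 (hall z)

/-- Step B -/
lemma stepB (hop : OpenOrbits G X) {U : Ultrafilter ℕ} (hU : (U : Filter ℕ) ≤ atTop)
    {a : G} {x : X} {k : ℕ} (hL : Lc G (k + 2) ≤ Ls (U : Filter ℕ) a x)
    (hgen : Subgroup.closure ({s : G | SR s} ∪ {a}) = ⊤) {x₀ : X}
    (htr : ∀ y : X, ∃ g : G, g • x₀ = y) (hd : ∀ O : Set X, IsOpen O → O.Nonempty →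
      ∃ n : ℕ, a ^ n • x₀ ∈ O) (hF : ∃ F : Set G, IsCompact F ∧ ∀ y : X, ∃ f ∈ F, f • x₀ = y)
    (i : ℕ) : ∀ l1 l2 : List G, l1.length = i + 1 → l1.length + l2.length = k + 2 →
    (∀ s ∈ l2, s • x₀ = x₀) → Dl (l1 ++ l2) ∈ Ls (U : Filter ℕ) a x := by
  induction i with
  | zero =>
    intro l1 l2 h1 h2 h3
    obtain ⟨z, rfl⟩ := List.length_eq_one_iff.1 h1
    exact stepA hop hU hL hgen htr hd (by simp at h2; omega) h3 z
  | succ i ih =>
    intro l1 l2 h1 h2 h3
    obtain ⟨x1, l, rfl⟩ : ∃ x1 l, l1 = x1 :: l := by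
      cases l1 with
      | nil => simp at h1
      | cons x1 l => exact ⟨x1, l, rfl⟩
    have hne : l ≠ [] := by rintro rfl; simp at h1
    obtain ⟨l', z, rfl⟩ : ∃ l' z, l = l' ++ [z] :=
      ⟨l.dropLast, l.getLast hne, (List.dropLast_append_getLast hne).symm⟩
    have hl : l'.length = i := by
      simp only [List.length_cons, List.length_append, List.length_nil] at h1
      omega
    have hlk : l'.length + l2.length = k := by
      simp only [List.length_cons, List.length_append, List.length_nil] at h2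
      omega
    have ht : (l' ++ z :: l2).length = k + 1 := by
      simp only [List.length_cons, List.length_append]
      omega
    have hVlen : Lc G (([] : List G).length + (l' ++ z :: l2).length + 1)
        ≤ Ls (U : Filter ℕ) a x := by
      rw [ht]
      simpa using hL
    set W := V (Ls (U : Filter ℕ) a x) [] (l' ++ z :: l2) with hW
    have hmW : ∀ v : G, v ∈ W ↔ Dl (v :: (l' ++ z :: l2)) ∈ Ls (U : Filter ℕ) a x := by
      intro v
      rw [hW, mem_V hVlen]; rfl
    have hWt : W = ⊤ := by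
      rw [eq_top_iff, ← hgen, Subgroup.closure_le]
      intro s hs
      rw [SetLike.mem_coe, hmW]
      rcases hs with hs | hs
      swap
      · rw [mem_singleton_iff] at hs
        rw [hs]; exact core' hop hU hL hgen ht
      obtain ⟨r, hr1, hr2⟩ := hs
      obtain ⟨F, hFc, hFx⟩ := hF
      choose f hfF hf using fun n : ℕ => hFx (z ^ n • x₀)
      -- limit of f
      obtain ⟨f0, -, hf0⟩ := hFc.ultrafilter_le_nhds (U.map f) (by
        rw [le_principal_iff]
        show f ⁻¹' F ∈ (U : Filter ℕ)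
        exact Filter.univ_mem' (fun n => hfF n))
      have hft : Tendsto f (U : Filter ℕ) (𝓝 f0) := hf0
      have hr1U := hr1.mono_left hU
      have hr2U := hr2.mono_left hU
      have hmem : ∀ n : ℕ, (Dl (r n :: (l' ++ f n :: l2)))⁻¹ * Dl (r n ^ n :: (l' ++ z :: l2))
          ∈ Ls (U : Filter ℕ) a x := by
        intro n
        have hlen2 : ([] : List G).length + (l' ++ z :: l2).length + 1 = k + 2 := by
          rw [ht]; simp
        have hlen3 : (r n :: l').length + l2.length + 1 = k + 2 := by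
          simp only [List.length_cons]; omega
        -- mk of the three
        have e1 : (QuotientGroup.mk (Dl (r n ^ n :: (l' ++ z :: l2))) : G ⧸ Lc G (k + 2))
            = (QuotientGroup.mk (Dl (r n :: (l' ++ z :: l2)))) ^ n := by
          have := map_pow (Dhom ([] : List G) (l' ++ z :: l2)) (r n) n
          rw [Dhom_apply, Dhom_apply] at this
          rw [hlen2] at this
          exact this
        have e2 : (QuotientGroup.mk (Dl (r n :: (l' ++ z ^ n :: l2))) : G ⧸ Lc G (k + 2))
            = (QuotientGroup.mk (Dl (r n :: (l' ++ z :: l2)))) ^ n := by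
          have := map_pow (Dhom (r n :: l') l2) z n
          rw [Dhom_apply, Dhom_apply] at this
          rw [hlen3] at this
          exact this
        have e3 : (QuotientGroup.mk (Dl (r n :: (l' ++ (f n * ((f n)⁻¹ * z ^ n)) :: l2))) :
            G ⧸ Lc G (k + 2)) = QuotientGroup.mk (Dl (r n :: (l' ++ f n :: l2))) *
              QuotientGroup.mk (Dl (r n :: (l' ++ ((f n)⁻¹ * z ^ n) :: l2))) := by
          have := Dl_mul (r n :: l') l2 (f n) ((f n)⁻¹ * z ^ n)
          rw [hlen3] at this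
          exact this
        have e4 : f n * ((f n)⁻¹ * z ^ n) = z ^ n := by group
        rw [e4, e2, ← e1] at e3
        have hγ : Dl (r n :: (l' ++ ((f n)⁻¹ * z ^ n) :: l2)) ∈ Ls (U : Filter ℕ) a x := by
          have := ih (r n :: l') (((f n)⁻¹ * z ^ n) :: l2) (by simp [hl]) (by
            simp only [List.length_cons]; omega) (by
            intro s hs
            rcases List.mem_cons.1 hs with rfl | h
            · rw [mul_smul, ← hf n, ← mul_smul, inv_mul_cancel, one_smul]
            · exact h3 s h)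
          simpa using this
        refine mem_of_mk hL ?_ hγ
        rw [QuotientGroup.mk_mul, QuotientGroup.mk_inv, e3]
        group
      have hlim : Tendsto (fun n => (Dl (r n :: (l' ++ f n :: l2)))⁻¹ *
          Dl (r n ^ n :: (l' ++ z :: l2))) (U : Filter ℕ) (𝓝 (Dl (s :: (l' ++ z :: l2)))) := by
        have h4 : Tendsto (fun n => Dl (r n :: (l' ++ f n :: l2))) (U : Filter ℕ) (𝓝 1) := by
          have e : (fun n => Dl (r n :: (l' ++ f n :: l2)))
              = fun n => ⁅r n, Dl (l' ++ f n :: l2)⁆ := by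
            ext n; exact Dl_cons _ (by simp)
          rw [e]
          have h5 := ((cont_Dl l' l2).tendsto f0).comp hft
          have h6 := (cont_comm (G := G)).tendsto (1, Dl (l' ++ f0 :: l2))
          have h7 := h6.comp (hr1U.prodMk_nhds h5)
          simp only [commutatorElement_one_left] at h7
          exact h7
        have h8 : Tendsto (fun n => Dl (r n ^ n :: (l' ++ z :: l2))) (U : Filter ℕ)
            (𝓝 (Dl (s :: (l' ++ z :: l2)))) :=
          ((cont_Dl [] (l' ++ z :: l2)).tendsto s).comp hr2U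
        have h9 := h4.inv.mul h8
        rwa [inv_one, one_mul] at h9
      exact (Ls_closed hop _ _ _).mem_of_tendsto hlim (Eventually.of_forall hmem)
    have h5 : x1 ∈ W := by rw [hWt]; trivial
    rw [hmW] at h5
    simpa using h5

lemma step (hop : OpenOrbits G X) {U : Ultrafilter ℕ} (hU : (U : Filter ℕ) ≤ atTop)
    {a : G} {x : X} {k : ℕ} (hL : Lc G (k + 2) ≤ Ls (U : Filter ℕ) a x)
    (hgen : Subgroup.closure ({s : G | SR s} ∪ {a}) = ⊤) {x₀ : X}
    (htr : ∀ y : X, ∃ g : G, g • x₀ = y) (hd : ∀ O : Set X, IsOpen O → O.Nonempty →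
      ∃ n : ℕ, a ^ n • x₀ ∈ O) (hF : ∃ F : Set G, IsCompact F ∧ ∀ y : X, ∃ f ∈ F, f • x₀ = y) :
    Lc G (k + 1) ≤ Ls (U : Filter ℕ) a x := by
  refine Lc_le_of_Dl (k + 1) _ hL ?_
  intro t ht
  have := stepB hop hU hL hgen htr hd hF (k + 1) t [] ht (by simpa using ht) (by simp)
  simpa using this

/-- The commutator subgroup of a nilpotent group stabilises the cluster sets. -/
theorem comm_le_Ls [Group.IsNilpotent G] (hop : OpenOrbits G X) {U : Ultrafilter ℕ}
    (hU : (U : Filter ℕ) ≤ atTop) (a : G) (x : X)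
    (hgen : Subgroup.closure ({s : G | SR s} ∪ {a}) = ⊤) {x₀ : X}
    (htr : ∀ y : X, ∃ g : G, g • x₀ = y) (hd : ∀ O : Set X, IsOpen O → O.Nonempty →
      ∃ n : ℕ, a ^ n • x₀ ∈ O) (hF : ∃ F : Set G, IsCompact F ∧ ∀ y : X, ∃ f ∈ F, f • x₀ = y) :
    Lc G 1 ≤ Ls (U : Filter ℕ) a x := by
  obtain ⟨c, hc⟩ : ∃ c, Lc G c = ⊥ := by
    exact Subgroup.nilpotent_iff_lowerCentralSeries.1 inferInstance
  have h : ∀ m k : ℕ, k + m = c → Lc G (k + 1) ≤ Ls (U : Filter ℕ) a x := by
    intro m
    induction m with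
    | zero =>
      intro k hk
      have : Lc G (k + 1) ≤ ⊥ := by
        rw [← hc]; exact Lc_le (by omega)
      exact this.trans bot_le
    | succ m ih =>
      intro k hk
      exact step hop hU (ih (k + 1) (by omega)) hgen htr hd hF
  simpa using h c 0 (by omega)

end Pool.Agent.Q162.Nil
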