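import Pool.Agent.Q162.Nil.Alg

/-!
Topological Mautner type argument for translations of nilpotent groups.
-/

namespace Pool.Agent.Q162.Nil

open scoped commutatorElement Topology Pointwise
open Filter Set

variable {G : Type*} [Group G] [TopologicalSpace G]

/-- small roots -/
def SR (s : G) : Prop :=
  ∃ r : ℕ → G, Tendsto r atTop (𝓝 1) ∧ Tendsto (fun n => r n ^ n) atTop (𝓝 s)

/-- simultaneous choice of small elements along a filter -/
lemma exists_small {α : Type*} {F : Filter α} [F.IsCountablyGenerated] {U : Filter ℕ}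
    (hU : U ≤ atTop) (P : ℕ → α → Prop) (hne : Nonempty α)
    (h : ∀ O ∈ F, ∀ᶠ n in U, ∃ p ∈ O, P n p) :
    ∃ p : ℕ → α, Tendsto p U F ∧ ∀ᶠ n in U, P n (p n) := by
  classical
  obtain ⟨B, hB⟩ := F.exists_antitone_basis
  let A : ℕ → ℕ → Prop := fun i n => (∃ p ∈ B i, P n p) ∧ i ≤ n
  have hA : ∀ i, ∀ᶠ n in U, A i n := by
    intro i
    have h1 := h (B i) (hB.mem i)
    have h2 : ∀ᶠ n in U, i ≤ n := hU (eventually_ge_atTop i)
    exact h1.and h2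
  let idx : ℕ → ℕ := fun n => Nat.findGreatest (fun i => A i n) n
  have hidx : ∀ i n, A i n → i ≤ idx n ∧ A (idx n) n := by
    intro i n hin
    exact ⟨Nat.le_findGreatest hin.2 hin, Nat.findGreatest_spec (P := fun i => A i n) hin.2 hin⟩
  let p : ℕ → α := fun n => if hn : A (idx n) n then hn.1.choose else hne.some
  refine ⟨p, ?_, ?_⟩
  · rw [hB.tendsto_right_iff]
    intro i _
    filter_upwards [hA i] with n hn
    obtain ⟨h1, h2⟩ := hidx i n hn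
    have h3 : p n ∈ B (idx n) := by
      simp only [p, dif_pos h2]
      exact h2.1.choose_spec.1
    exact hB.antitone h1 h3
  · filter_upwards [hA 0] with n hn
    obtain ⟨h1, h2⟩ := hidx 0 n hn
    simp only [p, dif_pos h2]
    exact h2.1.choose_spec.2

variable [IsTopologicalGroup G]
variable {X : Type*} [TopologicalSpace X] [MulAction G X] [ContinuousSMul G X]

/-- the cluster set -/
def Lam (U : Filter ℕ) (a : G) (x : X) : Set X :=
  {y | ∀ O ∈ 𝓝 (1 : G), ∀ᶠ n in U, ∃ h ∈ O, ∃ k ∈ O, a ^ n • h • x = k • y}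

/-- open orbit maps -/
def OpenOrbits (G X : Type*) [Group G] [TopologicalSpace G] [TopologicalSpace X]
    [MulAction G X] : Prop :=
  ∀ y : X, ∀ O ∈ 𝓝 (1 : G), (fun g : G => g • y) '' O ∈ 𝓝 y

lemma exists_half {O : Set G} (hO : O ∈ 𝓝 (1 : G)) :
    ∃ W ∈ 𝓝 (1 : G), ∀ u ∈ W, ∀ v ∈ W, u * v ∈ O := by
  obtain ⟨W, hWo, hW1, hW⟩ := exists_open_nhds_one_mul_subset hO
  exact ⟨W, hWo.mem_nhds hW1, fun u hu v hv => hW (Set.mul_mem_mul hu hv)⟩

lemma Lam_closed (hop : OpenOrbits G X) (U : Filter ℕ) (a : G) (x : X) :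
    IsClosed (Lam U a x) := by
  rw [← closure_subset_iff_isClosed]
  intro y hy O hO
  obtain ⟨W, hW, hWW⟩ := exists_half hO
  obtain ⟨y', hy'1, hy'2⟩ := mem_closure_iff_nhds.1 hy _ (hop y W hW)
  obtain ⟨k0, hk0, rfl⟩ := hy'1
  filter_upwards [hy'2 W hW] with n hn
  obtain ⟨h, hh, k, hk, e⟩ := hn
  have h1 : (1 : G) ∈ W := mem_of_mem_nhds hW
  refine ⟨h, ?_, k * k0, hWW k hk k0 hk0, ?_⟩
  · have := hWW h hh 1 h1
    rwa [mul_one] at this
  · rw [e, mul_smul]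

lemma Lam_of_tendsto (hop : OpenOrbits G X) {U : Filter ℕ} {a : G} {x y : X}
    {h q : ℕ → G} {w : ℕ → X} (hh : Tendsto h U (𝓝 1)) (hq : Tendsto q U (𝓝 1))
    (hw : Tendsto w U (𝓝 y)) (he : ∀ᶠ n in U, a ^ n • h n • x = q n • w n) : y ∈ Lam U a x := by
  intro O hO
  obtain ⟨W, hW, hWW⟩ := exists_half hO
  filter_upwards [hh hO, hq hW, hw (hop y W hW), he] with n h1 h2 h3 h4
  obtain ⟨r, hr, e⟩ := h3
  refine ⟨h n, h1, q n * r, hWW _ h2 _ hr, ?_⟩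
  rw [h4, mul_smul]
  simp only at e
  rw [e]

/-- symmetric orbit closure relation of a normal subgroup -/
lemma closure_symm (hop : OpenOrbits G X) (N : Subgroup G) [N.Normal] {y z : X}
    (h : y ∈ closure ((fun g : G => g • z) '' (N : Set G))) :
    z ∈ closure ((fun g : G => g • y) '' (N : Set G)) := by
  rw [mem_closure_iff_nhds] at h ⊢
  intro V hV
  have h1 : (fun g : G => g⁻¹ • z) ⁻¹' V ∈ 𝓝 (1 : G) := by
    have : Continuous (fun g : G => g⁻¹ • z) := by fun_prop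
    apply this.continuousAt
    simpa using hV
  obtain ⟨y', hy1, ν, hν, e⟩ := h _ (hop y _ h1)
  obtain ⟨k, hk, rfl⟩ := hy1
  simp only at e hk
  refine ⟨k⁻¹ • z, hk, k⁻¹ * ν⁻¹ * k, ?_, ?_⟩
  · have := (inferInstance : N.Normal).conj_mem ν⁻¹ (inv_mem hν) k⁻¹
    simpa using this
  · show (k⁻¹ * ν⁻¹ * k) • y = k⁻¹ • z
    rw [mul_smul, ← e, ← mul_smul]
    simp [mul_assoc]

/-- stabiliser of the cluster set -/
def Ls (U : Filter ℕ) (a : G) (x : X) : Subgroup G where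
  carrier := {g | (∀ y ∈ Lam U a x, g • y ∈ Lam U a x) ∧ (∀ y ∈ Lam U a x, g⁻¹ • y ∈ Lam U a x)}
  one_mem' := by simp
  mul_mem' := by
    rintro g g' ⟨h1, h2⟩ ⟨h3, h4⟩
    refine ⟨fun y hy => ?_, fun y hy => ?_⟩
    · rw [mul_smul]; exact h1 _ (h3 _ hy)
    · rw [mul_inv_rev, mul_smul]; exact h4 _ (h2 _ hy)
  inv_mem' := by
    rintro g ⟨h1, h2⟩
    exact ⟨h2, by simpa using h1⟩

lemma Ls_smul {U : Filter ℕ} {a : G} {x : X} {g : G} (hg : g ∈ Ls U a x) {y : X}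
    (hy : y ∈ Lam U a x) : g • y ∈ Lam U a x := hg.1 y hy

lemma Ls_closed (hop : OpenOrbits G X) (U : Filter ℕ) (a : G) (x : X) :
    IsClosed (Ls U a x : Set G) := by
  have hc := Lam_closed hop U a x
  have e : (Ls U a x : Set G) = (⋂ y ∈ Lam U a x, (fun g : G => g • y) ⁻¹' Lam U a x) ∩
      (⋂ y ∈ Lam U a x, (fun g : G => g⁻¹ • y) ⁻¹' Lam U a x) := by
    ext g
    simp only [mem_inter_iff, mem_iInter, mem_preimage]
    rfl
  rw [e]
  refine IsClosed.inter ?_ ?_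
  · exact isClosed_biInter fun y _ => hc.preimage (by fun_prop)
  · exact isClosed_biInter fun y _ => hc.preimage (by fun_prop)

variable [CompactSpace X] [FirstCountableTopology G]

/-- one half of (2'') -/
lemma comm_smul_mem (hop : OpenOrbits G X) {U : Ultrafilter ℕ} (hU : (U : Filter ℕ) ≤ atTop)
    {a : G} {x : X} {k : ℕ} (hL : Lc G (k + 2) ≤ Ls (U : Filter ℕ) a x) {g : G} {r e : ℕ → G}
    (hr : Tendsto r atTop (𝓝 1)) (hrk : ∀ n, r n ∈ Lc G k) (he : Tendsto e atTop (𝓝 g))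
    (hre : ∀ n, (QuotientGroup.mk (r n ^ n) : G ⧸ Lc G (k + 1)) = QuotientGroup.mk (e n))
    {y : X} (hy : y ∈ Lam (U : Filter ℕ) a x) : ⁅a, g⁆ • y ∈ Lam (U : Filter ℕ) a x := by
  set z : X := ⁅a, g⁆ • y with hz
  -- sequences realising `y`
  obtain ⟨p, hp, hpe⟩ := exists_small (F := 𝓝 (1 : G) ×ˢ 𝓝 (1 : G)) hU
    (fun n (p : G × G) => a ^ n • p.1 • x = p.2 • y) ⟨(1, 1)⟩ (by
      intro O hO
      obtain ⟨O1, hO1, O2, hO2, hsub⟩ := Filter.mem_prod_iff.1 hO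
      filter_upwards [hy (O1 ∩ O2) (inter_mem hO1 hO2)] with n hn
      obtain ⟨h, hh, k, hk, e⟩ := hn
      exact ⟨(h, k), hsub ⟨hh.1, hk.2⟩, e⟩)
  have hp1 : Tendsto (fun n => (p n).1) (U : Filter ℕ) (𝓝 1) := tendsto_fst.comp hp
  have hp2 : Tendsto (fun n => (p n).2) (U : Filter ℕ) (𝓝 1) := tendsto_snd.comp hp
  have hrU : Tendsto r (U : Filter ℕ) (𝓝 1) := hr.mono_left hU
  have heU : Tendsto e (U : Filter ℕ) (𝓝 g) := he.mono_left hU
  -- the error elements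
  set κ : ℕ → G := fun n => ⁅a ^ n, r n⁆ * ⁅a, e n⁆⁻¹ with hκ
  have hκm : ∀ n, κ n ∈ Lc G (k + 2) := by
    intro n
    have h1 := pow_comm_left a (hrk n) n
    have h2 := pow_comm_right a (hrk n) n
    have h3 := comm_congr a (hre n)
    have h4 : (QuotientGroup.mk ⁅a ^ n, r n⁆ : G ⧸ Lc G (k + 2)) = QuotientGroup.mk ⁅a, e n⁆ := by
      rw [h1, ← h2, h3]
    have h5 : (QuotientGroup.mk (κ n) : G ⧸ Lc G (k + 2)) = QuotientGroup.mk 1 := by
      simp only [hκ, QuotientGroup.mk_mul, QuotientGroup.mk_inv]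
      rw [h4, mul_inv_cancel]; rfl
    rw [QuotientGroup.eq] at h5
    simpa using h5
  set q : ℕ → G := fun n => ⁅a, e n⁆ * r n * (p n).2 * ⁅a, g⁆⁻¹ with hq
  have hqt : Tendsto q (U : Filter ℕ) (𝓝 1) := by
    have hc : Tendsto (fun n => ⁅a, e n⁆) (U : Filter ℕ) (𝓝 ⁅a, g⁆) := by
      have : Continuous (fun t : G => ⁅a, t⁆) := by
        simp only [commutatorElement_def]; fun_prop
      exact (this.tendsto g).comp heU
    have := ((hc.mul hrU).mul hp2).mul_const (⁅a, g⁆⁻¹)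
    rwa [mul_one, mul_one, mul_inv_cancel] at this
  have hκ' : ∀ n, (q n)⁻¹ * κ n * q n ∈ Lc G (k + 2) := by
    intro n
    have := (inferInstance : (Lc G (k + 2)).Normal).conj_mem _ (hκm n) (q n)⁻¹
    simpa using this
  set w : ℕ → X := fun n => ((q n)⁻¹ * κ n * q n) • z with hw
  -- limit of w
  obtain ⟨y', -, hy'⟩ := (isCompact_univ (X := X)).ultrafilter_le_nhds (U.map w) (by simp)
  have hwt : Tendsto w (U : Filter ℕ) (𝓝 y') := hy'
  have hmem : y' ∈ Lam (U : Filter ℕ) a x := by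
    refine Lam_of_tendsto hop (h := fun n => r n * (p n).1) (q := q) (w := w) ?_ hqt hwt ?_
    · have := hrU.mul hp1
      simpa using this
    · filter_upwards [hpe] with n hn
      simp only [hw]
      have e1 : a ^ n • (r n * (p n).1) • x = (⁅a ^ n, r n⁆ * r n) • (a ^ n • (p n).1 • x) := by
        simp only [← mul_smul, commutatorElement_def]
        congr 1
        group
      have e2 : q n • ((q n)⁻¹ * κ n * q n) • z = (κ n * q n) • z := by
        rw [← mul_smul]; congr 1; group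
      rw [e1, hn, e2, hz, hq, hκ]
      simp only [← mul_smul]
      congr 1
      group
  have hcl : y' ∈ closure ((fun g : G => g • z) '' (Lc G (k + 2) : Set G)) := by
    refine mem_closure_of_tendsto hwt (Eventually.of_forall fun n => ?_)
    exact ⟨_, hκ' n, rfl⟩
  have hz' := closure_symm hop (Lc G (k + 2)) hcl
  have hsub : (fun g : G => g • y') '' (Lc G (k + 2) : Set G) ⊆ Lam (U : Filter ℕ) a x := by
    rintro _ ⟨ν, hν, rfl⟩
    exact Ls_smul (hL hν) hmem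
  exact (closure_minimal hsub (Lam_closed hop _ _ _)) hz'

/-- (2'') -/
lemma comm_mem_Ls (hop : OpenOrbits G X) {U : Ultrafilter ℕ} (hU : (U : Filter ℕ) ≤ atTop)
    {a : G} {x : X} {k : ℕ} (hL : Lc G (k + 2) ≤ Ls (U : Filter ℕ) a x) {g : G} (hg : g ∈ Lc G k)
    {r e : ℕ → G} (hr : Tendsto r atTop (𝓝 1)) (hrk : ∀ n, r n ∈ Lc G k)
    (he : Tendsto e atTop (𝓝 g))
    (hre : ∀ n, (QuotientGroup.mk (r n ^ n) : G ⧸ Lc G (k + 1)) = QuotientGroup.mk (e n)) :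
    ⁅a, g⁆ ∈ Ls (U : Filter ℕ) a x := by
  refine ⟨fun y hy => comm_smul_mem hop hU hL hr hrk he hre hy, fun y hy => ?_⟩
  have h1 : ⁅a, g⁻¹⁆ • y ∈ Lam (U : Filter ℕ) a x := by
    refine comm_smul_mem hop hU hL (r := fun n => (r n)⁻¹) (e := fun n => (e n)⁻¹) ?_
      (fun n => inv_mem (hrk n)) he.inv ?_ hy
    · have := hr.inv
      simpa using this
    · intro n
      rw [inv_pow, QuotientGroup.mk_inv, hre n, ← QuotientGroup.mk_inv]
  have h2 := comm_mul_right a (u := g) (inv_mem hg)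
  rw [mul_inv_cancel, commutatorElement_one_right, ← QuotientGroup.mk_mul, QuotientGroup.eq] at h2
  have h3 : ⁅a, g⁆ * ⁅a, g⁻¹⁆ ∈ Lc G (k + 2) := by simpa using h2
  have h4 : ⁅a, g⁻¹⁆ * ⁅a, g⁆ ∈ Lc G (k + 2) := by
    have := (inferInstance : (Lc G (k + 2)).Normal).conj_mem _ h3 ⁅a, g⁆⁻¹
    have e : ⁅a, g⁆⁻¹ * (⁅a, g⁆ * ⁅a, g⁻¹⁆) * ⁅a, g⁆⁻¹⁻¹ = ⁅a, g⁻¹⁆ * ⁅a, g⁆ := by group
    rwa [e] at this
  have e : ⁅a, g⁆⁻¹ • y = (⁅a, g⁻¹⁆ * ⁅a, g⁆)⁻¹ • ⁅a, g⁻¹⁆ • y → ⁅a, g⁆⁻¹ • y ∈ Lam (U : Filter ℕ) a x := by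
    intro h
    rw [h]
    exact Ls_smul (hL (inv_mem h4)) h1
  have h5 : ⁅a, g⁆⁻¹ * ⁅a, g⁻¹⁆⁻¹ ∈ Lc G (k + 2) := by
    have := inv_mem h4
    rwa [mul_inv_rev] at this
  have e2 : ⁅a, g⁆⁻¹ • y = (⁅a, g⁆⁻¹ * ⁅a, g⁻¹⁆⁻¹) • (⁅a, g⁻¹⁆ • y) := by
    rw [← mul_smul]; congr 1; group
  rw [e2]
  exact Ls_smul (hL h5) h1

end Pool.Agent.Q162.Nil
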