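import Pool.Agent.Q162.Nil.Dyn

/-!
Elements of a Lie group close to the identity have small roots of all orders.
-/

namespace Pool.Agent.Q162.Nil

open scoped Topology Pointwise Manifold ContDiff
open Filter Set

section dyadic

variable {G : Type*} [Group G] [TopologicalSpace G] [IsTopologicalGroup G]

lemma dyadic_pow {g : ℕ → G} (h2 : ∀ k, g (k + 1) ^ 2 = g k) (k : ℕ) : g k ^ (2 ^ k) = g 0 := by
  induction k with
  | zero => simp
  | succ k ih => rw [pow_succ', pow_mul, h2, ih]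

lemma SR_of_dyadic {g : ℕ → G} (h2 : ∀ k, g (k + 1) ^ 2 = g k)
    (hP : ∀ O ∈ 𝓝 (1 : G), ∃ J : ℕ, ∀ k m : ℕ, m * 2 ^ J ≤ 2 ^ k → g k ^ m ∈ O) : SR (g 0) := by
  refine ⟨fun n => g (2 * n) ^ (2 ^ (2 * n) / n), ?_, ?_⟩
  · intro O hO
    obtain ⟨J, hJ⟩ := hP O hO
    rw [Filter.mem_map]
    filter_upwards [eventually_ge_atTop (2 ^ J)] with n hn
    apply hJ
    calc 2 ^ (2 * n) / n * 2 ^ J ≤ 2 ^ (2 * n) / n * n := Nat.mul_le_mul_left _ hn
      _ ≤ 2 ^ (2 * n) := Nat.div_mul_le_self _ _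
  · have e : ∀ n : ℕ, (g (2 * n) ^ (2 ^ (2 * n) / n)) ^ n
        = g 0 * (g (2 * n) ^ (2 ^ (2 * n) % n))⁻¹ := by
      intro n
      rw [eq_mul_inv_iff_mul_eq, ← pow_mul, ← pow_add, ← dyadic_pow h2 (2 * n)]
      congr 1
      rw [mul_comm]
      exact Nat.div_add_mod _ _
    have h3 : Tendsto (fun n : ℕ => g (2 * n) ^ (2 ^ (2 * n) % n)) atTop (𝓝 1) := by
      intro O hO
      obtain ⟨J, hJ⟩ := hP O hO
      rw [Filter.mem_map]
      filter_upwards [eventually_ge_atTop (J + 1)] with n hn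
      apply hJ
      have h4 : 2 ^ (2 * n) % n < n := Nat.mod_lt _ (by omega)
      have h5 : n ≤ 2 ^ n := Nat.lt_two_pow_self.le
      calc 2 ^ (2 * n) % n * 2 ^ J ≤ 2 ^ n * 2 ^ n :=
            Nat.mul_le_mul (h4.le.trans h5) (Nat.pow_le_pow_right (by norm_num) (by omega))
        _ = 2 ^ (2 * n) := by rw [← pow_add]; congr 1; ring
    have h6 := h3.inv.const_mul (g 0)
    rw [inv_one, mul_one] at h6
    exact h6.congr (fun n => (e n).symm)

end dyadic

section local_analysis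

variable {G : Type*} [Group G] [TopologicalSpace G] [IsTopologicalGroup G]
variable {E : Type*} [NormedAddCommGroup E] [NormedSpace ℝ E] [CompleteSpace E]

lemma SR_local {φ : G → E} {ψ : E → G} (hφ1 : φ 1 = 0) (hφc : ContinuousAt φ 1)
    (hψc : ContinuousAt ψ 0) (hψφ : ∀ᶠ g in 𝓝 (1 : G), ψ (φ g) = g)
    (hφψ : ∀ᶠ x in 𝓝 (0 : E), φ (ψ x) = x)
    (hm : ContDiffAt ℝ 1 (fun p : E × E => φ (ψ p.1 * ψ p.2)) (0, 0)) :
    ∀ᶠ g in 𝓝 (1 : G), SR g := by
  have hψ0 : ψ 0 = 1 := by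
    have := hψφ.self_of_nhds
    rwa [hφ1] at this
  set m : E × E → E := fun p => φ (ψ p.1 * ψ p.2) with hmdef
  have hms := hm.hasStrictFDerivAt one_ne_zero
  set L := fderiv ℝ m (0, 0) with hL
  -- identification of the derivative
  have hx0 : ∀ᶠ x in 𝓝 (0 : E), m (x, 0) = x := by
    filter_upwards [hφψ] with x hx
    simp only [hmdef, hψ0, mul_one, hx]
  have hy0 : ∀ᶠ x in 𝓝 (0 : E), m (0, x) = x := by
    filter_upwards [hφψ] with x hx
    simp only [hmdef, hψ0, one_mul, hx]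
  have hL1 : ∀ x : E, L (x, 0) = x := by
    have h1 : HasFDerivAt (fun x : E => m (x, 0)) (L.comp (ContinuousLinearMap.inl ℝ E E)) 0 :=
      HasFDerivAt.comp (f := fun x : E => (x, (0 : E))) (g := m) (0 : E) hms.hasFDerivAt
        (ContinuousLinearMap.inl ℝ E E).hasFDerivAt
    have h2 : HasFDerivAt (fun x : E => x) (L.comp (ContinuousLinearMap.inl ℝ E E)) 0 :=
      h1.congr_of_eventuallyEq (hx0.mono fun x hx => hx.symm)
    have h3 := h2.unique (hasFDerivAt_id (𝕜 := ℝ) (0 : E))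
    intro x
    have := congrArg (fun T : E →L[ℝ] E => T x) h3
    simpa using this
  have hL2 : ∀ x : E, L (0, x) = x := by
    have h1 : HasFDerivAt (fun x : E => m (0, x)) (L.comp (ContinuousLinearMap.inr ℝ E E)) 0 :=
      HasFDerivAt.comp (f := fun x : E => ((0 : E), x)) (g := m) (0 : E) hms.hasFDerivAt
        (ContinuousLinearMap.inr ℝ E E).hasFDerivAt
    have h2 : HasFDerivAt (fun x : E => x) (L.comp (ContinuousLinearMap.inr ℝ E E)) 0 :=
      h1.congr_of_eventuallyEq (hy0.mono fun x hx => hx.symm)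
    have h3 := h2.unique (hasFDerivAt_id (𝕜 := ℝ) (0 : E))
    intro x
    have := congrArg (fun T : E →L[ℝ] E => T x) h3
    simpa using this
  have hLadd : ∀ x y : E, L (x, y) = x + y := by
    intro x y
    have : (x, y) = (x, 0) + (0, y) := by simp
    rw [this, map_add, hL1, hL2]
  -- squaring map
  set sq : E → E := fun x => m (x, x) with hsq
  let T : E ≃L[ℝ] E := ContinuousLinearEquiv.equivOfInverse ((2 : ℝ) • ContinuousLinearMap.id ℝ E)
    ((1 / 2 : ℝ) • ContinuousLinearMap.id ℝ E) (fun x => by simp [smul_smul])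
    (fun x => by simp [smul_smul])
  have hsqd : HasStrictFDerivAt sq (T : E →L[ℝ] E) 0 := by
    have h1 : HasStrictFDerivAt (fun x : E => (x, x))
        ((ContinuousLinearMap.id ℝ E).prod (ContinuousLinearMap.id ℝ E)) 0 :=
      ((ContinuousLinearMap.id ℝ E).prod (ContinuousLinearMap.id ℝ E)).hasStrictFDerivAt
    have h2 := HasStrictFDerivAt.comp (f := fun x : E => (x, x)) (g := m) (0 : E) hms h1
    have e : L.comp ((ContinuousLinearMap.id ℝ E).prod (ContinuousLinearMap.id ℝ E))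
        = (T : E →L[ℝ] E) := by
      ext x
      show L (x, x) = (2 : ℝ) • x
      rw [hLadd, two_smul]
    rw [← e]
    exact h2
  have hsq0 : sq 0 = 0 := by simp only [hsq, hmdef, hψ0, mul_one, hφ1]
  set ρ := hsqd.localInverse sq T 0 with hρ
  have hρd := hsqd.to_localInverse
  have hρr := hsqd.eventually_right_inverse
  have hρ0 : ρ 0 = 0 := by
    have := hsqd.localInverse_apply_image
    rwa [hsq0] at this
  rw [hsq0] at hρd hρr
  have hρn : ∀ᶠ x in 𝓝 (0 : E), ‖ρ x‖ ≤ 3 / 4 * ‖x‖ := by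
    have h1 := hρd.hasFDerivAt.isLittleO
    have h2 := (Asymptotics.isLittleO_iff.1 h1) (show (0 : ℝ) < 1 / 4 by norm_num)
    filter_upwards [h2] with x hx
    have e : ((T.symm : E ≃L[ℝ] E) : E →L[ℝ] E) (x - 0) = (1 / 2 : ℝ) • x := by
      rw [sub_zero]; rfl
    rw [e, sub_zero] at hx
    change ‖ρ x - ρ 0 - (1 / 2 : ℝ) • x‖ ≤ 1 / 4 * ‖x‖ at hx
    rw [hρ0, sub_zero] at hx
    have h3 : ‖ρ x‖ ≤ ‖ρ x - (1 / 2 : ℝ) • x‖ + ‖(1 / 2 : ℝ) • x‖ := by
      have := norm_add_le (ρ x - (1 / 2 : ℝ) • x) ((1 / 2 : ℝ) • x)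
      rwa [sub_add_cancel] at this
    rw [norm_smul, Real.norm_of_nonneg (by norm_num : (0 : ℝ) ≤ 1 / 2)] at h3
    linarith
  -- Lipschitz bound
  have hlip : ∀ᶠ p in 𝓝 ((0 : E), (0 : E)), ‖m p‖ ≤ ‖p.1‖ + 2 * ‖p.2‖ := by
    have h1 := hms.isLittleO
    have h2 := (Asymptotics.isLittleO_iff.1 h1) (show (0 : ℝ) < 1 by norm_num)
    have h3 : Tendsto (fun p : E × E => (p, (p.1, (0 : E)))) (𝓝 ((0 : E), (0 : E)))
        (𝓝 (((0 : E), (0 : E)), ((0 : E), (0 : E)))) := by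
      have : Continuous (fun p : E × E => (p, (p.1, (0 : E)))) := by fun_prop
      exact this.tendsto _
    have h4 := h3.eventually h2
    have h5 : ∀ᶠ p in 𝓝 ((0 : E), (0 : E)), m (p.1, 0) = p.1 := by
      have : Tendsto (fun p : E × E => p.1) (𝓝 ((0 : E), (0 : E))) (𝓝 0) :=
        continuous_fst.tendsto _
      exact this.eventually hx0
    filter_upwards [h4, h5] with p hp hp0
    rw [hp0] at hp
    have e : p - (p.1, 0) = (0, p.2) := by ext <;> simp
    rw [e, hL2] at hp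
    have e2 : ‖((0 : E), p.2)‖ = ‖p.2‖ := by
      rw [Prod.norm_def]; simp
    rw [e2, one_mul] at hp
    have h6 : ‖m p‖ ≤ ‖m p - p.1 - p.2‖ + ‖p.1‖ + ‖p.2‖ := by
      have e3 : m p = (m p - p.1 - p.2) + p.1 + p.2 := by abel
      calc ‖m p‖ = ‖(m p - p.1 - p.2) + p.1 + p.2‖ := by rw [← e3]
        _ ≤ _ := norm_add₃_le
    linarith
  -- group law
  have hgl : ∀ᶠ p in 𝓝 ((0 : E), (0 : E)), ψ (m p) = ψ p.1 * ψ p.2 := by
    have h1 : Tendsto (fun p : E × E => ψ p.1 * ψ p.2) (𝓝 ((0 : E), (0 : E))) (𝓝 1) := by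
      have h2 : Tendsto (fun p : E × E => ψ p.1) (𝓝 ((0 : E), (0 : E))) (𝓝 1) := by
        have h3 : Tendsto ψ (𝓝 0) (𝓝 1) := by
          have := hψc.tendsto
          rwa [hψ0] at this
        exact h3.comp (continuous_fst.tendsto ((0 : E), (0 : E)))
      have h2' : Tendsto (fun p : E × E => ψ p.2) (𝓝 ((0 : E), (0 : E))) (𝓝 1) := by
        have h3 : Tendsto ψ (𝓝 0) (𝓝 1) := by
          have := hψc.tendsto
          rwa [hψ0] at this
        exact h3.comp (continuous_snd.tendsto ((0 : E), (0 : E)))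
      have := h2.mul h2'
      rwa [one_mul] at this
    exact h1.eventually hψφ
  -- the good radius
  obtain ⟨δ, hδ, hball⟩ : ∃ δ > 0, (∀ x : E, ‖x‖ < δ → ‖ρ x‖ ≤ 3 / 4 * ‖x‖ ∧ sq (ρ x) = x) ∧
      (∀ x y : E, ‖x‖ < δ → ‖y‖ < δ → ‖m (x, y)‖ ≤ ‖x‖ + 2 * ‖y‖ ∧ ψ (m (x, y)) = ψ x * ψ y) := by
    obtain ⟨δ1, hδ1, h1⟩ := Metric.eventually_nhds_iff.1 (hρn.and hρr)
    obtain ⟨δ2, hδ2, h2⟩ := Metric.eventually_nhds_iff.1 (hlip.and hgl)
    refine ⟨min δ1 δ2, lt_min hδ1 hδ2, ?_, ?_⟩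
    · intro x hx
      exact h1 (by rw [dist_zero_right]; exact hx.trans_le (min_le_left _ _))
    · intro x y hx hy
      have := @h2 (x, y) (by
        rw [Prod.dist_eq]
        simp only [dist_zero_right]
        exact max_lt (hx.trans_le (min_le_right _ _)) (hy.trans_le (min_le_right _ _)))
      exact this
  obtain ⟨hball1, hball2⟩ := hball
  have hsmall : ∀ᶠ g in 𝓝 (1 : G), ‖φ g‖ < δ / 6 := by
    have h1 : Tendsto (fun g => ‖φ g‖) (𝓝 1) (𝓝 0) := by
      have := hφc.tendsto.norm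
      rwa [hφ1, norm_zero] at this
    exact h1.eventually (gt_mem_nhds (by positivity))
  filter_upwards [hsmall, hψφ] with g hg hgψ
  set x0 := φ g with hx0def
  have hxn : ∀ k : ℕ, ‖ρ^[k] x0‖ ≤ (3 / 4) ^ k * ‖x0‖ := by
    intro k
    induction k with
    | zero => simp
    | succ k ih =>
      rw [Function.iterate_succ_apply']
      have h1 : (3 / 4 : ℝ) ^ k ≤ 1 := pow_le_one₀ (by norm_num) (by norm_num)
      have h2 : ‖ρ^[k] x0‖ < δ := by
        have : (3 / 4 : ℝ) ^ k * ‖x0‖ ≤ 1 * ‖x0‖ := mul_le_mul_of_nonneg_right h1 (norm_nonneg _)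
        linarith
      have h3 := (hball1 _ h2).1
      calc ‖ρ (ρ^[k] x0)‖ ≤ 3 / 4 * ‖ρ^[k] x0‖ := h3
        _ ≤ 3 / 4 * ((3 / 4) ^ k * ‖x0‖) := by gcongr
        _ = (3 / 4) ^ (k + 1) * ‖x0‖ := by ring
  have hxδ : ∀ k : ℕ, ‖ρ^[k] x0‖ < δ := by
    intro k
    have h1 : (3 / 4 : ℝ) ^ k ≤ 1 := pow_le_one₀ (by norm_num) (by norm_num)
    have : (3 / 4 : ℝ) ^ k * ‖x0‖ ≤ 1 * ‖x0‖ := mul_le_mul_of_nonneg_right h1 (norm_nonneg _)
    have := hxn k
    linarith
  set gk : ℕ → G := fun k => ψ (ρ^[k] x0) with hgk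
  have h2 : ∀ k, gk (k + 1) ^ 2 = gk k := by
    intro k
    have h3 := (hball2 (ρ^[k + 1] x0) (ρ^[k + 1] x0) (hxδ _) (hxδ _)).2
    have h4 := (hball1 (ρ^[k] x0) (hxδ _)).2
    rw [pow_two]
    simp only [hgk]
    rw [← h3]
    rw [Function.iterate_succ_apply']
    exact congrArg ψ h4
  have hg0 : gk 0 = g := by simp only [hgk, Function.iterate_zero, id]; exact hgψ
  have hclaim : ∀ j d n : ℕ, n < 2 ^ d → ∃ y : E, gk (j + d) ^ n = ψ y ∧
      ‖y‖ ≤ 6 * ‖x0‖ * ((3 / 4) ^ j - (3 / 4) ^ (j + d)) := by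
    intro j d
    induction d with
    | zero =>
      intro n hn
      have : n = 0 := by simpa using hn
      subst this
      exact ⟨0, by rw [pow_zero, hψ0], by simp⟩
    | succ d ih =>
      intro n hn
      obtain ⟨y, hy1, hy2⟩ := ih (n / 2) (by rw [pow_succ] at hn; omega)
      have hj1 : (3 / 4 : ℝ) ^ j ≤ 1 := pow_le_one₀ (by norm_num) (by norm_num)
      have hj2 : (0 : ℝ) < (3 / 4 : ℝ) ^ (j + d) := by positivity
      have hxnn : 0 ≤ ‖x0‖ := norm_nonneg _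
      have hinc : (6 : ℝ) * ‖x0‖ * ((3 / 4) ^ j - (3 / 4) ^ (j + (d + 1)))
          = 6 * ‖x0‖ * ((3 / 4) ^ j - (3 / 4) ^ (j + d)) + 2 * ((3 / 4) ^ (j + (d + 1)) * ‖x0‖) := by
        have : (3 / 4 : ℝ) ^ (j + (d + 1)) = (3 / 4) ^ (j + d) * (3 / 4) := by
          rw [← add_assoc, pow_succ]
        rw [this]; ring
      have hsplit : gk (j + (d + 1)) ^ n = gk (j + d) ^ (n / 2) * gk (j + (d + 1)) ^ (n % 2) := by
        conv_lhs => rw [← Nat.div_add_mod n 2, pow_add, pow_mul]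
        congr 2
        exact h2 (j + d)
      rcases Nat.mod_two_eq_zero_or_one n with h0 | h1
      · refine ⟨y, ?_, ?_⟩
        · rw [hsplit, h0, pow_zero, mul_one, hy1]
        · rw [hinc]
          have : 0 ≤ 2 * ((3 / 4 : ℝ) ^ (j + (d + 1)) * ‖x0‖) := by positivity
          linarith
      · have hyδ : ‖y‖ < δ := by
          have h5 : (3 / 4 : ℝ) ^ j - (3 / 4) ^ (j + d) ≤ 1 := by linarith
          have h6 : 6 * ‖x0‖ * ((3 / 4 : ℝ) ^ j - (3 / 4) ^ (j + d)) ≤ 6 * ‖x0‖ * 1 :=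
            mul_le_mul_of_nonneg_left h5 (by positivity)
          linarith
        have h7 := hball2 y (ρ^[j + (d + 1)] x0) hyδ (hxδ _)
        refine ⟨m (y, ρ^[j + (d + 1)] x0), ?_, ?_⟩
        · rw [hsplit, h1, pow_one, hy1, h7.2]
        · rw [hinc]
          have h8 := hxn (j + (d + 1))
          linarith [h7.1]
  rw [← hg0]
  refine SR_of_dyadic h2 ?_
  intro O hO
  have hO' : ψ ⁻¹' O ∈ 𝓝 (0 : E) := by
    apply hψc
    rwa [hψ0]
  obtain ⟨ε, hε, hεO⟩ := Metric.mem_nhds_iff.1 hO'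
  obtain ⟨J, hJ⟩ := exists_pow_lt_of_lt_one (show (0 : ℝ) < ε / (6 * ‖x0‖ + 1) by positivity)
    (show (3 / 4 : ℝ) < 1 by norm_num)
  refine ⟨J + 1, ?_⟩
  intro k n hkn
  rcases Nat.eq_zero_or_pos n with rfl | hn
  · rw [pow_zero]; exact mem_of_mem_nhds hO
  · have hJk : J + 1 ≤ k := by
      by_contra hlt
      push Not at hlt
      have h9 : (2 : ℕ) ^ k < 2 ^ (J + 1) := Nat.pow_lt_pow_right (by norm_num) hlt
      have h10 : 2 ^ (J + 1) ≤ n * 2 ^ (J + 1) := Nat.le_mul_of_pos_left _ hn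
      omega
    obtain ⟨d, rfl⟩ : ∃ d, k = J + d := ⟨k - J, by omega⟩
    obtain ⟨y, hy1, hy2⟩ := hclaim J d n (by
      have h11 : n * 2 ^ (J + 1) ≤ 2 ^ J * 2 ^ d := by rw [← pow_add]; exact hkn
      have h12 : n * 2 * 2 ^ J ≤ 2 ^ d * 2 ^ J := by
        calc n * 2 * 2 ^ J = n * 2 ^ (J + 1) := by ring
          _ ≤ 2 ^ J * 2 ^ d := h11
          _ = _ := by ring
      have h13 := Nat.le_of_mul_le_mul_right h12 (by positivity)
      omega)
    rw [hy1]
    apply hεO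
    rw [Metric.mem_ball, dist_zero_right]
    have hj2 : (0 : ℝ) < (3 / 4 : ℝ) ^ (J + d) := by positivity
    have hxnn : 0 ≤ ‖x0‖ := norm_nonneg _
    have h14 : 6 * ‖x0‖ * ((3 / 4 : ℝ) ^ J - (3 / 4) ^ (J + d)) ≤ 6 * ‖x0‖ * (3 / 4 : ℝ) ^ J :=
      mul_le_mul_of_nonneg_left (by linarith) (by positivity)
    have h15 : 6 * ‖x0‖ * (3 / 4 : ℝ) ^ J ≤ (6 * ‖x0‖ + 1) * (3 / 4 : ℝ) ^ J :=
      mul_le_mul_of_nonneg_right (by linarith) (by positivity)
    have h16 : (6 * ‖x0‖ + 1) * (3 / 4 : ℝ) ^ J < ε := by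
      rw [lt_div_iff₀ (by positivity)] at hJ
      linarith
    linarith

end local_analysis

section lie

lemma SR_lie {E : Type*} [NormedAddCommGroup E] [NormedSpace ℝ E] [CompleteSpace E]
    {H : Type*} [TopologicalSpace H] (I : ModelWithCorners ℝ E H) [I.Boundaryless]
    {G : Type*} [TopologicalSpace G] [ChartedSpace H G] [Group G] [LieGroup I 1 G]
    [IsTopologicalGroup G] : ∀ᶠ g in 𝓝 (1 : G), SR g := by
  set c : E := extChartAt I (1 : G) 1 with hc
  have hF := (contMDiff_mul I (G := G) 1).contMDiffAt (x := ((1 : G), (1 : G)))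
  rw [contMDiffAt_iff] at hF
  obtain ⟨-, hF⟩ := hF
  rw [ModelWithCorners.range_eq_univ, contDiffWithinAt_univ] at hF
  simp only [mul_one] at hF
  refine SR_local (E := E) (φ := fun g => extChartAt I (1 : G) g - c)
    (ψ := fun x => (extChartAt I (1 : G)).symm (x + c)) (by simp [hc]) ?_ ?_ ?_ ?_ ?_
  · exact (continuousAt_extChartAt (I := I) (1 : G)).sub continuousAt_const
  · have h1 : ContinuousAt (extChartAt I (1 : G)).symm (0 + c) := by
      rw [zero_add]; exact continuousAt_extChartAt_symm (I := I) (1 : G)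
    exact ContinuousAt.comp (f := fun x : E => x + c) h1 (by fun_prop)
  · have h1 : (extChartAt I (1 : G)).source ∈ 𝓝 (1 : G) := extChartAt_source_mem_nhds (I := I) 1
    filter_upwards [h1] with g hg
    rw [sub_add_cancel]
    exact (extChartAt I (1 : G)).left_inv hg
  · have h1 : (extChartAt I (1 : G)).target ∈ 𝓝 c := extChartAt_target_mem_nhds (I := I) (1 : G)
    have h2 : Tendsto (fun x : E => x + c) (𝓝 0) (𝓝 c) := by
      have : Continuous (fun x : E => x + c) := by fun_prop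
      have := this.tendsto 0
      rwa [zero_add] at this
    filter_upwards [h2 h1] with x hx
    rw [(extChartAt I (1 : G)).right_inv hx, add_sub_cancel_right]
  · have h1 : ContDiffAt ℝ 1 (fun p : E × E => (p.1 + c, p.2 + c)) (0, 0) := by fun_prop
    have h2 := ContDiffAt.comp (f := fun p : E × E => (p.1 + c, p.2 + c)) ((0 : E), (0 : E))
      (g := (extChartAt I (1 : G)) ∘ (fun p : G × G => p.1 * p.2) ∘
        (extChartAt (I.prod I) ((1 : G), (1 : G))).symm) (by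
        convert hF using 1
        rw [extChartAt_prod]
        simp [hc]) h1
    have h3 := h2.sub (contDiffAt_const (c := c))
    convert h3 using 1
    ext p
    simp only [Function.comp_apply, extChartAt_prod]
    rfl

end lie

end Pool.Agent.Q162.Nil
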