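import Pool.Agent.Q162.Nil.Core
import Pool.Agent.Q162.Nil.Roots

/-!
From the Kronecker type factor to the nilsystem.
-/

namespace Pool.Agent.Q162.Nil

open scoped commutatorElement Topology Pointwise
open Filter Set

section general

variable {G : Type*} [Group G] [TopologicalSpace G] [IsTopologicalGroup G]
variable {X : Type*} [TopologicalSpace X] [MulAction G X]

lemma OpenOrbits.isOpenMap (hop : OpenOrbits G X) (y : X) : IsOpenMap (fun g : G => g • y) := by
  intro O hO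
  rw [isOpen_iff_mem_nhds]
  rintro _ ⟨g, hg, rfl⟩
  have h1 : (fun v : G => v * g) ⁻¹' O ∈ 𝓝 (1 : G) := by
    have hc : Continuous (fun v : G => v * g) := by fun_prop
    apply hc.continuousAt
    refine hO.mem_nhds ?_
    show 1 * g ∈ O
    rwa [one_mul]
  filter_upwards [hop (g • y) _ h1] with w hw
  obtain ⟨v, hv, rfl⟩ := hw
  exact ⟨v * g, hv, by simp only [mul_smul]⟩

lemma openOrbits_quot (N : Subgroup G) : OpenOrbits G (G ⧸ N) := by
  intro y O hO
  obtain ⟨g, rfl⟩ := QuotientGroup.mk_surjective y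
  have h1 : IsOpenMap (QuotientGroup.mk : G → G ⧸ N) := QuotientGroup.isOpenMap_coe
  have h2 : (fun v => v * g) '' O ∈ 𝓝 g := by
    have h := (Homeomorph.mulRight g).isOpenMap.image_mem_nhds hO
    simpa using h
  have h3 := h1.image_mem_nhds h2
  rw [← image_comp] at h3
  exact h3

lemma openOrbits_sub (hop : OpenOrbits G X) {K : Subgroup G} (hK : IsOpen (K : Set G)) :
    OpenOrbits K X := by
  intro y O hO
  have h1 : (Subtype.val '' O : Set G) ∈ 𝓝 (1 : G) := by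
    have h := (hK.isOpenMap_subtype_val).image_mem_nhds (x := (1 : K)) hO
    exact h
  have h2 := hop y _ h1
  rw [← image_comp] at h2
  exact h2

variable [ContinuousSMul G X]

lemma sc_of_open_orbits [CompactSpace X] (hop : OpenOrbits G X) {V : Set G} (hVo : IsOpen V)
    (hV1 : (1 : G) ∈ V) [SecondCountableTopology V] : SecondCountableTopology X := by
  have hsub : ∀ y : X, SecondCountableTopology ((fun g : G => g • y) '' V : Set X) := by
    intro y
    let f : V → ((fun g : G => g • y) '' V : Set X) := fun v => ⟨(v : G) • y, ⟨v, v.2, rfl⟩⟩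
    have hfo : IsOpenMap f := by
      intro O hO
      have h1 : IsOpen ((fun g : G => g • y) '' (Subtype.val '' O)) :=
        hop.isOpenMap y _ (hVo.isOpenMap_subtype_val O hO)
      rw [isOpen_induced_iff]
      refine ⟨_, h1, ?_⟩
      ext w
      constructor
      · rintro ⟨_, ⟨v, hv, rfl⟩, e⟩
        exact ⟨v, hv, Subtype.ext e⟩
      · rintro ⟨v, hv, rfl⟩
        exact ⟨v, ⟨v, hv, rfl⟩, rfl⟩
    have hfc : Continuous f := by
      refine Continuous.subtype_mk ?_ _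
      fun_prop
    have hfs : Function.Surjective f := by
      rintro ⟨_, v, hv, rfl⟩
      exact ⟨⟨v, hv⟩, rfl⟩
    exact (hfo.isQuotientMap hfc hfs).secondCountableTopology hfo
  obtain ⟨t, ht⟩ := CompactSpace.elim_nhds_subcover (fun y : X => (fun g : G => g • y) '' V)
    (fun y => hop y V (hVo.mem_nhds hV1))
  have : ∀ i : t, SecondCountableTopology ((fun g : G => g • (i : X)) '' V : Set X) :=
    fun i => hsub i
  refine TopologicalSpace.secondCountableTopology_of_countable_cover (ι := t)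
    (U := fun i => (fun g : G => g • (i : X)) '' V) (fun i => hop.isOpenMap _ _ hVo) ?_
  rw [eq_univ_iff_forall]
  intro w
  have hw : w ∈ ⋃ y ∈ t, (fun g : G => g • y) '' V := by rw [ht]; trivial
  simp only [mem_iUnion] at hw ⊢
  obtain ⟨y, hy, hwy⟩ := hw
  exact ⟨⟨y, hy⟩, hwy⟩

omit [ContinuousSMul G X] in
lemma exists_compact_F [LocallyCompactSpace G] [CompactSpace X] (hop : OpenOrbits G X) {x₀ : X}
    (htr : ∀ y : X, ∃ g : G, g • x₀ = y) :
    ∃ F : Set G, IsCompact F ∧ ∀ y : X, ∃ f ∈ F, f • x₀ = y := by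
  obtain ⟨K, hK, hK1⟩ := exists_compact_mem_nhds (1 : G)
  choose g hg using htr
  obtain ⟨t, ht⟩ := CompactSpace.elim_nhds_subcover (fun y : X => (fun k : G => k • y) '' K)
    (fun y => hop y K hK1)
  refine ⟨⋃ y ∈ t, (fun k : G => k * g y) '' K, ?_, ?_⟩
  · refine t.isCompact_biUnion fun y _ => hK.image ?_
    fun_prop
  · intro w
    have hw : w ∈ ⋃ y ∈ t, (fun g : G => g • y) '' K := by rw [ht]; trivial
    simp only [mem_iUnion] at hw
    obtain ⟨y, hy, k, hk, rfl⟩ := hw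
    refine ⟨k * g y, ?_, ?_⟩
    · simp only [mem_iUnion]
      exact ⟨y, hy, k, hk, rfl⟩
    · rw [mul_smul, hg]

end general

lemma SR_sub {G : Type*} [Group G] [TopologicalSpace G] {K : Subgroup G}
    (hK : IsOpen (K : Set G)) {s : K} (hs : SR (s : G)) : SR s := by
  classical
  obtain ⟨r, hr1, hr2⟩ := hs
  have hev : ∀ᶠ n in atTop, r n ∈ K := hr1 (hK.mem_nhds (one_mem K))
  refine ⟨fun n => if h : r n ∈ K then ⟨r n, h⟩ else 1, ?_, ?_⟩
  · rw [tendsto_subtype_rng]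
    refine hr1.congr' ?_
    filter_upwards [hev] with n hn
    rw [dif_pos hn]
  · rw [tendsto_subtype_rng]
    refine hr2.congr' ?_
    filter_upwards [hev] with n hn
    rw [dif_pos hn]
    rfl

lemma rot_inf {Z : Type*} [Group Z] [TopologicalSpace Z] [IsTopologicalGroup Z] [CompactSpace Z]
    [T2Space Z] {A : Set ℕ} (hmod : ∀ m c : ℕ, c < m → ∃ n ∈ A, n % m = c) {α : Z}
    (hmin : ∀ z : Z, Dense {y | ∃ n : ℕ, 1 ≤ n ∧ α ^ n * z = y})
    (hd : ∃ z : Z, Dense {y | ∃ n ∈ A, α ^ n * z = y}) (z : Z) {W : Set Z} (hW : IsOpen W)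
    (hWn : W.Nonempty) (N : ℕ) : ∃ n ∈ A, N ≤ n ∧ α ^ n * z ∈ W := by
  by_cases hiso : ∃ w : Z, IsOpen ({w} : Set Z)
  · obtain ⟨w0, hw0⟩ := hiso
    have h1 : IsOpen ({1} : Set Z) := by
      have h2 := (Homeomorph.mulRight w0⁻¹).isOpenMap _ hw0
      simpa using h2
    have : DiscreteTopology Z := discreteTopology_of_isOpen_singleton_one h1
    have : Finite Z := finite_of_compact_of_discrete
    obtain ⟨w, hw⟩ := hWn
    obtain ⟨y, ⟨k, hk, hkz⟩, hyw⟩ : ∃ y ∈ {y | ∃ n : ℕ, 1 ≤ n ∧ α ^ n * z = y}, y = w := by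
      obtain ⟨y, hy1, hy2⟩ := (hmin z).inter_open_nonempty {w} (isOpen_discrete _) ⟨w, rfl⟩
      exact ⟨y, hy2, hy1⟩
    set q := orderOf α with hq
    have hq0 : 0 < q := orderOf_pos α
    have hkq : k % q < q := Nat.mod_lt _ hq0
    obtain ⟨n, hnA, hn⟩ := hmod (q * (N + 1)) (k % q + q * N) (by
      rw [mul_add, mul_one]; omega)
    refine ⟨n, hnA, ?_, ?_⟩
    · have h3 : n % (q * (N + 1)) ≤ n := Nat.mod_le _ _
      have h4 : N ≤ q * N := Nat.le_mul_of_pos_left _ hq0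
      omega
    · have h5 : n % q = k % q := by
        have h6 : n % (q * (N + 1)) % q = n % q := Nat.mod_mod_of_dvd _ ⟨N + 1, rfl⟩
        rw [← h6, hn, Nat.add_mul_mod_self_left, Nat.mod_mod]
      have h7 : α ^ n = α ^ k := by
        rw [← pow_mod_orderOf α n, ← pow_mod_orderOf α k, ← hq, h5]
      rw [h7, hkz, hyw]; exact hw
  · push Not at hiso
    have : ∀ w : Z, NeBot (𝓝[≠] w) := by
      intro w
      rw [neBot_iff]
      intro h
      exact hiso w (isOpen_singleton_iff_punctured_nhds w |>.2 h)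
    obtain ⟨z0, hz0⟩ := hd
    have hdz : Dense {y | ∃ n ∈ A, α ^ n * z = y} := by
      intro y
      rw [mem_closure_iff_nhds]
      intro O hO
      have hc : Continuous (fun v : Z => v * (z0⁻¹ * z)) := by fun_prop
      have h1 : (fun v : Z => v * (z0⁻¹ * z)) ⁻¹' O ∈ 𝓝 (y * (z0⁻¹ * z)⁻¹) := by
        apply hc.continuousAt
        have e : y * (z0⁻¹ * z)⁻¹ * (z0⁻¹ * z) = y := by group
        show O ∈ 𝓝 (y * (z0⁻¹ * z)⁻¹ * (z0⁻¹ * z))
        rwa [e]
      obtain ⟨v, hv1, n, hn, rfl⟩ := mem_closure_iff_nhds.1 (hz0 (y * (z0⁻¹ * z)⁻¹)) _ h1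
      refine ⟨α ^ n * z, ?_, n, hn, rfl⟩
      have e : α ^ n * z0 * (z0⁻¹ * z) = α ^ n * z := by group
      rw [← e]; exact hv1
    have hfin : ((fun n : ℕ => α ^ n * z) '' Set.Iio N).Finite := (Set.finite_Iio N).image _
    obtain ⟨y, hy1, hy2, hy3⟩ := (hdz.sdiff_finite hfin).inter_open_nonempty W hW hWn
    obtain ⟨n, hn, rfl⟩ := hy2
    refine ⟨n, hn, ?_, hy1⟩
    by_contra hlt
    push Not at hlt
    exact hy3 ⟨n, hlt, rfl⟩

/-- the universal property of `A` for rotations of compact groups. -/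
def RotHyp (A : Set ℕ) : Prop :=
  ∀ (Z : Type) [Group Z] [TopologicalSpace Z] [IsTopologicalGroup Z] [CompactSpace Z] [T3Space Z]
    [SecondCountableTopology Z] (α : Z),
    (∀ z : Z, Dense {y | ∃ n : ℕ, 1 ≤ n ∧ α ^ n * z = y}) →
    ∃ z : Z, Dense {y | ∃ n ∈ A, α ^ n * z = y}

theorem trans_along {G : Type} [Group G] [TopologicalSpace G] [IsTopologicalGroup G]
    [FirstCountableTopology G] [LocallyCompactSpace G] [Group.IsNilpotent G]
    {X : Type*} [TopologicalSpace X] [MulAction G X] [ContinuousSMul G X] [CompactSpace X]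
    (hop : OpenOrbits G X) {x₀ : X} (htr : ∀ y : X, ∃ g : G, g • x₀ = y)
    {V : Set G} (hVo : IsOpen V) (hV1 : (1 : G) ∈ V) [SecondCountableTopology V]
    {a : G} (hgen : Subgroup.closure ({s : G | SR s} ∪ {a}) = ⊤)
    (hmin : ∀ y : X, ∀ O : Set X, IsOpen O → O.Nonempty → ∃ n : ℕ, 1 ≤ n ∧ a ^ n • y ∈ O)
    {A : Set ℕ} (hmod : ∀ m c : ℕ, c < m → ∃ n ∈ A, n % m = c) (hrot : RotHyp A)
    {O₁ O₂ : Set X} (hO₁ : IsOpen O₁) (hO₂ : IsOpen O₂) (hn₁ : O₁.Nonempty) (hn₂ : O₂.Nonempty) :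
    ∃ n ∈ A, ∃ w ∈ O₁, a ^ n • w ∈ O₂ := by
  obtain ⟨F, hFc, hFx⟩ := exists_compact_F hop htr
  set Γ := MulAction.stabilizer G x₀ with hΓ
  set M := Lc G 1 ⊔ Γ with hM
  have hMn : M.Normal := by
    refine ⟨fun n hn g => ?_⟩
    have h1 : ⁅g, n⁆ ∈ Lc G 1 := by
      have := comm_mem (n := 0) g (p := n) (by rw [Lc_zero]; trivial)
      simpa using this
    have e : g * n * g⁻¹ = ⁅g, n⁆ * n := by rw [commutatorElement_def]; group
    rw [e]
    exact mul_mem ((le_sup_left : Lc G 1 ≤ M) h1) hn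
  set K := M.topologicalClosure with hK
  have hKn : K.Normal := Subgroup.is_normal_topologicalClosure M
  have hKc : IsClosed (K : Set G) := Subgroup.isClosed_topologicalClosure M
  have hΓK : Γ ≤ K := (le_sup_right : Γ ≤ M).trans (Subgroup.le_topologicalClosure M)
  have hstab : ∀ g g' : G, g • x₀ = g' • x₀ → (QuotientGroup.mk g : G ⧸ K) = QuotientGroup.mk g' := by
    intro g g' h
    rw [QuotientGroup.eq]
    apply hΓK
    rw [hΓ, MulAction.mem_stabilizer_iff, mul_smul, ← h, inv_smul_smul]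
  have : CompactSpace (G ⧸ K) := by
    rw [← isCompact_univ_iff]
    have h1 := hFc.image (QuotientGroup.continuous_mk (N := K))
    convert h1
    symm
    rw [eq_univ_iff_forall]
    intro z
    obtain ⟨g, rfl⟩ := QuotientGroup.mk_surjective z
    obtain ⟨f, hf, e⟩ := hFx (g • x₀)
    exact ⟨f, hf, hstab _ _ e⟩
  have : SecondCountableTopology (G ⧸ K) := sc_of_open_orbits (openOrbits_quot K) hVo hV1
  set α : G ⧸ K := QuotientGroup.mk a with hα
  have hmk : ∀ (n : ℕ) (g : G), α ^ n * QuotientGroup.mk g = QuotientGroup.mk (a ^ n * g) := by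
    intro n g; rfl
  have hZmin : ∀ z : G ⧸ K, Dense {y | ∃ n : ℕ, 1 ≤ n ∧ α ^ n * z = y} := by
    intro z
    rw [dense_iff_inter_open]
    intro W hW hWn
    obtain ⟨g, rfl⟩ := QuotientGroup.mk_surjective z
    have hW' : IsOpen ((QuotientGroup.mk : G → G ⧸ K) ⁻¹' W) :=
      hW.preimage QuotientGroup.continuous_mk
    have hWn' : ((QuotientGroup.mk : G → G ⧸ K) ⁻¹' W).Nonempty := by
      obtain ⟨w, hw⟩ := hWn
      obtain ⟨g', rfl⟩ := QuotientGroup.mk_surjective w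
      exact ⟨g', hw⟩
    obtain ⟨n, hn1, g', hg', e⟩ := hmin (g • x₀) _ (hop.isOpenMap x₀ _ hW') (hWn'.image _)
    refine ⟨QuotientGroup.mk (a ^ n * g), ?_, n, hn1, hmk n g⟩
    have : (QuotientGroup.mk g' : G ⧸ K) = QuotientGroup.mk (a ^ n * g) := by
      apply hstab
      rw [mul_smul]
      exact e
    rw [← this]
    exact hg'
  have hZd := hrot (G ⧸ K) α hZmin
  obtain ⟨x, hx⟩ := hn₁
  obtain ⟨y, hy⟩ := hn₂
  obtain ⟨g₁, rfl⟩ := htr x
  obtain ⟨g₂, rfl⟩ := htr y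
  -- the ultrafilter
  set 𝓕 : Filter ℕ := (atTop ⊓ 𝓟 A) ⊓
    comap (fun n : ℕ => α ^ n * QuotientGroup.mk g₁) (𝓝 (QuotientGroup.mk g₂ : G ⧸ K)) with h𝓕
  have hne : NeBot 𝓕 := by
    rw [h𝓕, inf_neBot_iff]
    intro s hs t ht
    rw [mem_inf_principal] at hs
    obtain ⟨N, hN⟩ := mem_atTop_sets.1 hs
    rw [mem_comap] at ht
    obtain ⟨W, hW, hWt⟩ := ht
    obtain ⟨W', hW's, hW'o, hW'm⟩ := mem_nhds_iff.1 hW
    obtain ⟨n, hnA, hnN, hnW⟩ := rot_inf hmod hZmin hZd (QuotientGroup.mk g₁) hW'o ⟨_, hW'm⟩ N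
    exact ⟨n, hN n hnN hnA, hWt (hW's hnW)⟩
  set U : Ultrafilter ℕ := Ultrafilter.of 𝓕 with hU
  have hU𝓕 : (U : Filter ℕ) ≤ 𝓕 := Ultrafilter.of_le 𝓕
  have hUtop : (U : Filter ℕ) ≤ atTop := hU𝓕.trans (inf_le_left.trans inf_le_left)
  have hUA : A ∈ (U : Filter ℕ) :=
    (hU𝓕.trans (inf_le_left.trans inf_le_right)) (mem_principal_self A)
  have hUt : Tendsto (fun n : ℕ => α ^ n * QuotientGroup.mk g₁) (U : Filter ℕ)
      (𝓝 (QuotientGroup.mk g₂ : G ⧸ K)) := tendsto_iff_comap.2 (hU𝓕.trans inf_le_right)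
  obtain ⟨y₀, -, hy₀⟩ := (isCompact_univ (X := X)).ultrafilter_le_nhds
    (U.map (fun n : ℕ => a ^ n • g₁ • x₀)) (by simp)
  have hy₀t : Tendsto (fun n : ℕ => a ^ n • g₁ • x₀) (U : Filter ℕ) (𝓝 y₀) := hy₀
  have hy₀L : y₀ ∈ Lam (U : Filter ℕ) a (g₁ • x₀) := by
    refine Lam_of_tendsto hop (h := fun _ => 1) (q := fun _ => 1) tendsto_const_nhds
      tendsto_const_nhds hy₀t (Eventually.of_forall fun n => ?_)
    simp
  obtain ⟨g₃, rfl⟩ := htr y₀
  have hlim2 : Tendsto (fun n : ℕ => α ^ n * QuotientGroup.mk g₁) (U : Filter ℕ)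
      (𝓝 (QuotientGroup.mk g₃ : G ⧸ K)) := by
    intro W hW
    have h1 : (fun k : G => (QuotientGroup.mk (k * g₃) : G ⧸ K)) ⁻¹' W ∈ 𝓝 (1 : G) := by
      have hc : Continuous (fun k : G => (QuotientGroup.mk (k * g₃) : G ⧸ K)) :=
        QuotientGroup.continuous_mk.comp (by fun_prop)
      apply hc.continuousAt
      simpa using hW
    have h2 := hy₀t (hop (g₃ • x₀) _ h1)
    rw [Filter.mem_map] at h2 ⊢
    filter_upwards [h2] with n hn
    obtain ⟨k, hk, e⟩ := hn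
    have h3 : (QuotientGroup.mk (k * g₃) : G ⧸ K) = QuotientGroup.mk (a ^ n * g₁) := by
      apply hstab
      rw [mul_smul, mul_smul]
      exact e
    show α ^ n * QuotientGroup.mk g₁ ∈ W
    rw [hmk, ← h3]
    exact hk
  have heq : (QuotientGroup.mk g₃ : G ⧸ K) = QuotientGroup.mk g₂ := tendsto_nhds_unique hlim2 hUt
  have hLs : Lc G 1 ≤ Ls (U : Filter ℕ) a (g₁ • x₀) :=
    comm_le_Ls hop hUtop a (g₁ • x₀) hgen htr (fun O hO hOn => by
      obtain ⟨n, -, hn⟩ := hmin x₀ O hO hOn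
      exact ⟨n, hn⟩) ⟨F, hFc, hFx⟩
  have hcl : g₂ • x₀ ∈ closure ((fun g : G => g • g₃ • x₀) '' (Lc G 1 : Set G)) := by
    rw [mem_closure_iff_nhds]
    intro O hO
    have h1 : (fun k : G => (g₃ * k) • x₀) ⁻¹' O ∈ 𝓝 (g₃⁻¹ * g₂) := by
      have hc : Continuous (fun k : G => (g₃ * k) • x₀) := by fun_prop
      apply hc.continuousAt
      simpa using hO
    have h2 : g₃⁻¹ * g₂ ∈ closure (M : Set G) := by
      have := QuotientGroup.eq.1 heq
      exact this
    obtain ⟨k, hkO, hkM⟩ := mem_closure_iff_nhds.1 h2 _ h1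
    obtain ⟨ν, hν, γ, hγ, rfl⟩ := Subgroup.mem_sup_of_normal_left.1 hkM
    refine ⟨(g₃ * (ν * γ)) • x₀, hkO, g₃ * ν * g₃⁻¹, ?_, ?_⟩
    · exact (inferInstance : (Lc G 1).Normal).conj_mem ν hν g₃
    · have hγ' : γ • x₀ = x₀ := hγ
      show (g₃ * ν * g₃⁻¹) • g₃ • x₀ = (g₃ * (ν * γ)) • x₀
      rw [← mul_assoc, mul_smul (g₃ * ν) γ, hγ', ← mul_smul]
      congr 1
      group
  have hyL : g₂ • x₀ ∈ Lam (U : Filter ℕ) a (g₁ • x₀) := by
    refine (closure_minimal ?_ (Lam_closed hop _ _ _)) hcl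
    rintro _ ⟨ν, hν, rfl⟩
    exact Ls_smul (hLs hν) hy₀L
  have hO : ((fun g : G => g • g₁ • x₀) ⁻¹' O₁ ∩ (fun g : G => g • g₂ • x₀) ⁻¹' O₂)
      ∈ 𝓝 (1 : G) := by
    refine inter_mem ?_ ?_
    · have hc : Continuous (fun g : G => g • g₁ • x₀) := by fun_prop
      apply hc.continuousAt
      refine hO₁.mem_nhds ?_
      simpa using hx
    · have hc : Continuous (fun g : G => g • g₂ • x₀) := by fun_prop
      apply hc.continuousAt
      refine hO₂.mem_nhds ?_
      simpa using hy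
  obtain ⟨n, ⟨h, hh, k, hk, e⟩, hnA⟩ := ((hyL _ hO).and hUA).exists
  refine ⟨n, hnA, h • g₁ • x₀, hh.1, ?_⟩
  rw [e]
  exact hk.2

/-- Baire category step -/
lemma baire_dense {X : Type*} [TopologicalSpace X] [CompactSpace X] [T2Space X]
    [SecondCountableTopology X] [Nonempty X] {f : ℕ → X → X} (hf : ∀ n, Continuous (f n))
    {A : Set ℕ} (h : ∀ O₁ O₂ : Set X, IsOpen O₁ → IsOpen O₂ → O₁.Nonempty → O₂.Nonempty →
      ∃ n ∈ A, ∃ w ∈ O₁, f n w ∈ O₂) : ∃ y : X, Dense {z | ∃ n ∈ A, f n y = z} := by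
  have hB := TopologicalSpace.isBasis_countableBasis X
  have hD : Dense (⋂ B ∈ TopologicalSpace.countableBasis X, ⋃ n ∈ A, (f n) ⁻¹' B) := by
    apply dense_biInter_of_isOpen
    · intro B hBm
      exact isOpen_biUnion fun n _ => (hB.isOpen hBm).preimage (hf n)
    · exact TopologicalSpace.countable_countableBasis X
    · intro B hBm
      rw [dense_iff_inter_open]
      intro O hO hOn
      obtain ⟨n, hn, w, hw, hwB⟩ := h O B hO (hB.isOpen hBm) hOn
        (TopologicalSpace.nonempty_of_mem_countableBasis hBm)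
      refine ⟨w, hw, ?_⟩
      simp only [mem_iUnion]
      exact ⟨n, hn, hwB⟩
  obtain ⟨y, hy⟩ := hD.nonempty
  refine ⟨y, ?_⟩
  rw [dense_iff_inter_open]
  intro O hO hOn
  obtain ⟨w, hw⟩ := hOn
  obtain ⟨B, hBm, hwB, hBO⟩ := hB.exists_subset_of_mem_open hw hO
  have h1 := mem_iInter₂.1 hy B hBm
  simp only [mem_iUnion] at h1
  obtain ⟨n, hn, hnB⟩ := h1
  exact ⟨f n y, hBO hnB, n, hn, rfl⟩

lemma t2_quot {G : Type*} [Group G] [TopologicalSpace G] [IsTopologicalGroup G] (Γ : Subgroup G)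
    (hΓ : IsClosed (Γ : Set G)) : T2Space (G ⧸ Γ) := by
  have h1 : IsOpenQuotientMap (QuotientGroup.mk : G → G ⧸ Γ) := QuotientGroup.isOpenQuotientMap_mk
  rw [t2Space_iff_of_isOpenQuotientMap h1]
  have e : {q : G × G | (QuotientGroup.mk q.1 : G ⧸ Γ) = QuotientGroup.mk q.2}
      = (fun q : G × G => q.1⁻¹ * q.2) ⁻¹' (Γ : Set G) := by
    ext q
    exact QuotientGroup.eq
  rw [e]
  exact hΓ.preimage (by fun_prop)

theorem nil_main {G : Type} [Group G] [TopologicalSpace G] [IsTopologicalGroup G] [T2Space G]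
    [FirstCountableTopology G] [LocallyCompactSpace G] [Group.IsNilpotent G]
    {V : Set G} (hVo : IsOpen V) (hV1 : (1 : G) ∈ V) [SecondCountableTopology V]
    (hSR : ∀ᶠ g in 𝓝 (1 : G), SR g) (Γ : Subgroup G) [DiscreteTopology Γ] [CompactSpace (G ⧸ Γ)]
    (a : G) (hmin : ∀ y : G ⧸ Γ, Dense {z | ∃ n : ℕ, 1 ≤ n ∧ a ^ n • y = z})
    {A : Set ℕ} (hmod : ∀ m c : ℕ, c < m → ∃ n ∈ A, n % m = c) (hrot : RotHyp A) :
    ∃ y : G ⧸ Γ, Dense {z | ∃ n ∈ A, a ^ n • y = z} := by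
  have hΓc : IsClosed (Γ : Set G) := Subgroup.isClosed_of_discrete
  have : T2Space (G ⧸ Γ) := t2_quot Γ hΓc
  have hopG : OpenOrbits G (G ⧸ Γ) := openOrbits_quot Γ
  have : SecondCountableTopology (G ⧸ Γ) := sc_of_open_orbits hopG hVo hV1
  set S : Set G := {s : G | SR s} ∪ {a} with hS
  set K := Subgroup.closure S with hK
  have hKo : IsOpen (K : Set G) := by
    refine Subgroup.isOpen_of_mem_nhds K (g := 1) ?_
    filter_upwards [hSR] with g hg
    exact Subgroup.subset_closure (Or.inl hg)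
  have haK : a ∈ K := Subgroup.subset_closure (Or.inr rfl)
  have : LocallyCompactSpace K := hKo.locallyCompactSpace
  have hmin' : ∀ y : G ⧸ Γ, ∀ O : Set (G ⧸ Γ), IsOpen O → O.Nonempty →
      ∃ n : ℕ, 1 ≤ n ∧ a ^ n • y ∈ O := by
    intro y O hO hOn
    obtain ⟨z, hz, n, hn, rfl⟩ := (hmin y).inter_open_nonempty O hO hOn
    exact ⟨n, hn, hz⟩
  have hop : OpenOrbits K (G ⧸ Γ) := openOrbits_sub hopG hKo
  set x₀ : G ⧸ Γ := QuotientGroup.mk 1 with hx₀
  set a1 : K := ⟨a, haK⟩ with ha1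
  have ha1s : ∀ (n : ℕ) (y : G ⧸ Γ), a1 ^ n • y = a ^ n • y := fun n y => rfl
  have htr : ∀ y : G ⧸ Γ, ∃ g : K, g • x₀ = y := by
    intro y
    have h1 : IsOpen ((fun g : K => g • y) '' univ) := hop.isOpenMap y univ isOpen_univ
    obtain ⟨n, -, g, -, e⟩ := hmin' x₀ _ h1 ⟨_, 1, trivial, rfl⟩
    refine ⟨g⁻¹ * a1 ^ n, ?_⟩
    rw [mul_smul, ha1s, ← e]
    exact inv_smul_smul g y
  have hgen : Subgroup.closure ({s : K | SR s} ∪ {a1}) = ⊤ := by
    rw [eq_top_iff, ← Subgroup.closure_closure_coe_preimage (k := S)]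
    apply Subgroup.closure_mono
    intro s hs
    rcases hs with hs | hs
    · exact Or.inl (SR_sub hKo hs)
    · exact Or.inr (Subtype.ext hs)
  set V' : Set K := Subtype.val ⁻¹' V with hV'
  have : SecondCountableTopology V' := by
    let f : V' → V := fun v => ⟨((v : K) : G), v.2⟩
    have h1 : Topology.IsInducing ((Subtype.val : V → G) ∘ f) := by
      have h2 : ((Subtype.val : V → G) ∘ f) = (Subtype.val : K → G) ∘ (Subtype.val : V' → K) := rfl
      rw [h2]
      exact Topology.IsInducing.subtypeVal.comp Topology.IsInducing.subtypeVal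
    have h3 : Topology.IsInducing f := (Topology.IsInducing.subtypeVal.of_comp_iff).1 h1
    exact h3.secondCountableTopology
  have hV'o : IsOpen V' := hVo.preimage continuous_subtype_val
  have hV'1 : (1 : K) ∈ V' := hV1
  have : Nonempty (G ⧸ Γ) := ⟨x₀⟩
  have : FirstCountableTopology K := Topology.IsInducing.subtypeVal.firstCountableTopology
  have : ContinuousSMul K (G ⧸ Γ) := by
    have hc : Continuous fun p : G × (G ⧸ Γ) => p.1 • p.2 := continuous_smul
    exact ⟨hc.comp ((continuous_subtype_val.comp continuous_fst).prodMk continuous_snd)⟩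
  refine baire_dense (f := fun n y => a ^ n • y) (fun n => by fun_prop) ?_
  intro O₁ O₂ h1 h2 h3 h4
  exact trans_along hop htr hV'o hV'1 hgen (fun y O hO hOn => hmin' y O hO hOn) hmod hrot h1 h2 h3 h4

end Pool.Agent.Q162.Nil
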